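import Mathlib

/-! Integer submodular functions with values at most two (the case `f(S) ≤ |S| + 2` of Frank's
conjecture on complementary vertices of 2-polymatroids): low sets, gaps. -/

namespace Pool.Agent.Run7.h836.Frank

open Finset
set_option linter.unusedSectionVars false

variable {V : Type*} [Fintype V] [DecidableEq V]

structure Core (h : Finset V → ℤ) : Prop where
  sub : ∀ S T, h (S ∪ T) + h (S ∩ T) ≤ h S + h T
  pos : ∀ S : Finset V, S ≠ ∅ → S ≠ univ → 1 ≤ h S
  le2 : ∀ S, h S ≤ 2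
  one : ∀ v, h {v} ≤ 1
  cone : ∀ v, h {v}ᶜ ≤ 1

def L (h : Finset V → ℤ) (S : Finset V) : Prop := S ≠ ∅ ∧ S ≠ univ ∧ h S ≤ 1

structure Gap (h : Finset V → ℤ) (A B : Finset V) : Prop where
  la : L h A
  lb : L h B
  sub : A ⊆ B
  two : ∃ p q, p ∈ B ∧ q ∈ B ∧ p ∉ A ∧ q ∉ A ∧ p ≠ q
  high : ∀ X, A ⊆ X → X ⊆ B → X ≠ A → X ≠ B → ¬ L h X

inductive FC (h : Finset V → ℤ) : Finset V → Finset V → Prop
  | refl (A : Finset V) (hA : L h A) : FC h A A
  | step (A : Finset V) (x : V) (hx : x ∉ A) (hA : L h A) (hB : L h (insert x A)) :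
      FC h A (insert x A)
  | trans (A B C : Finset V) (h1 : FC h A B) (h2 : FC h B C) : FC h A C

def QS (h : Finset V → ℤ) : Prop :=
  ∀ a b c d : V, a ≠ b → a ≠ c → a ≠ d → b ≠ c → b ≠ d → c ≠ d →
    ∃ S, L h S ∧ ((a ∈ S ∧ b ∈ S ∧ c ∉ S ∧ d ∉ S) ∨ (a ∉ S ∧ b ∉ S ∧ c ∈ S ∧ d ∈ S))

variable {h : Finset V → ℤ}

theorem ne_emp {S : Finset V} {x : V} (hx : x ∈ S) : S ≠ ∅ := by
  rintro rfl; simp at hx

theorem ne_uni {S : Finset V} {x : V} (hx : x ∉ S) : S ≠ univ := by
  rintro rfl; simp at hx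

theorem L_of {S : Finset V} {x y : V} (hx : x ∈ S) (hy : y ∉ S) (hh : h S ≤ 1) : L h S :=
  ⟨ne_emp hx, ne_uni hy, hh⟩

theorem not_L {S : Finset V} {x y : V} (hc : Core h) (hx : x ∈ S) (hy : y ∉ S) (hh : ¬ L h S) :
    h S = 2 := by
  have := hc.le2 S
  by_contra hne
  exact hh (L_of hx hy (by omega))

theorem cross (hc : Core h) {S T : Finset V} (hS : L h S) (hT : L h T) {x y : V}
    (xS : x ∈ S) (xT : x ∈ T) (yS : y ∉ S) (yT : y ∉ T) : L h (S ∩ T) ∧ L h (S ∪ T) := by
  have h1 : x ∈ S ∩ T := mem_inter.2 ⟨xS, xT⟩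
  have h2 : y ∉ S ∪ T := by simp [yS, yT]
  have h3 : y ∉ S ∩ T := by simp [yS]
  have h4 : x ∈ S ∪ T := by simp [xS]
  have e1 := hc.pos (S ∩ T) (ne_emp h1) (ne_uni h3)
  have e2 := hc.pos (S ∪ T) (ne_emp h4) (ne_uni h2)
  have e3 := hc.sub S T
  have e4 := hS.2.2
  have e5 := hT.2.2
  exact ⟨L_of h1 h3 (by omega), L_of h4 h2 (by omega)⟩

theorem L_one (hc : Core h) {u w : V} (huw : u ≠ w) : L h {u} :=
  L_of (x := u) (y := w) (by simp) (by simp [Ne.symm huw]) (hc.one u)

theorem L_cone (hc : Core h) {u w : V} (huw : u ≠ w) : L h {w}ᶜ :=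
  L_of (x := u) (y := w) (by simp [huw]) (by simp) (hc.cone w)

theorem ex_mem {S : Finset V} (hS : L h S) : ∃ x, x ∈ S := Finset.nonempty_iff_ne_empty.2 hS.1

theorem ex_not {S : Finset V} (hS : L h S) : ∃ x, x ∉ S := by
  by_contra hc
  push Not at hc
  exact hS.2.1 (by ext x; simp [hc x])

/-- lattice closure -/
theorem sep (hc : Core h) {G H P Q : Finset V} {g k p0 q0 : V} (hg : g ∈ G) (hk : k ∈ H)
    (hp0 : p0 ∈ P) (hq0 : q0 ∈ Q)
    (hyp : ∀ p ∈ P, ∀ q ∈ Q, ∃ S, L h S ∧ G ⊆ S ∧ (∀ z ∈ H, z ∉ S) ∧ p ∈ S ∧ q ∉ S) :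
    ∃ S, L h S ∧ G ⊆ S ∧ (∀ z ∈ H, z ∉ S) ∧ P ⊆ S ∧ (∀ q ∈ Q, q ∉ S) := by
  have step1 : ∀ p ∈ P, ∀ Q' : Finset V, Q' ⊆ Q →
      ∃ S, L h S ∧ G ⊆ S ∧ (∀ z ∈ H, z ∉ S) ∧ p ∈ S ∧ (∀ q ∈ Q', q ∉ S) := by
    intro p hp Q'
    induction Q' using Finset.induction_on with
    | empty =>
      intro _
      obtain ⟨S, h1, h2, h3, h4, _⟩ := hyp p hp q0 hq0
      exact ⟨S, h1, h2, h3, h4, by simp⟩
    | insert q Q' hq ih =>
      intro hsub
      obtain ⟨S, h1, h2, h3, h4, h5⟩ := ih (fun x hx => hsub (mem_insert_of_mem hx))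
      obtain ⟨T, k1, k2, k3, k4, k5⟩ := hyp p hp q (hsub (mem_insert_self _ _))
      refine ⟨S ∩ T, (cross hc h1 k1 (h2 hg) (k2 hg) (h3 k hk) (k3 k hk)).1,
        subset_inter h2 k2, fun z hz hz' => h3 z hz (mem_inter.1 hz').1,
        mem_inter.2 ⟨h4, k4⟩, ?_⟩
      intro r hr hr'
      rcases mem_insert.1 hr with rfl | hr
      · exact k5 (mem_inter.1 hr').2
      · exact h5 r hr (mem_inter.1 hr').1
  have step2 : ∀ P' : Finset V, P' ⊆ P →
      ∃ S, L h S ∧ G ⊆ S ∧ (∀ z ∈ H, z ∉ S) ∧ P' ⊆ S ∧ (∀ q ∈ Q, q ∉ S) := by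
    intro P'
    induction P' using Finset.induction_on with
    | empty =>
      intro _
      obtain ⟨S, h1, h2, h3, h4, h5⟩ := step1 p0 hp0 Q (Finset.Subset.refl _)
      exact ⟨S, h1, h2, h3, by simp, h5⟩
    | insert p P' hp ih =>
      intro hsub
      obtain ⟨S, h1, h2, h3, h4, h5⟩ := ih (fun x hx => hsub (mem_insert_of_mem hx))
      obtain ⟨T, k1, k2, k3, k4, k5⟩ := step1 p (hsub (mem_insert_self _ _)) Q (Finset.Subset.refl _)
      refine ⟨S ∪ T, (cross hc h1 k1 (h2 hg) (k2 hg) (h3 k hk) (k3 k hk)).2,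
        fun x hx => mem_union_left _ (h2 hx), ?_, ?_, ?_⟩
      · intro z hz hz'
        rcases mem_union.1 hz' with hz' | hz'
        · exact h3 z hz hz'
        · exact k3 z hz hz'
      · intro r hr
        rcases mem_insert.1 hr with rfl | hr
        · exact mem_union_right _ k4
        · exact mem_union_left _ (h4 hr)
      · intro r hr hr'
        rcases mem_union.1 hr' with hr' | hr'
        · exact h5 r hr hr'
        · exact k5 r hr hr'
  exact step2 P (Finset.Subset.refl _)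

/-- strictly between the two ends of a gap: value two -/
theorem Gap.h2 (hc : Core h) {A B : Finset V} (g : Gap h A B) {X : Finset V} (h1 : A ⊆ X)
    (h2 : X ⊆ B) {x y : V} (hx : x ∈ X) (hx' : x ∉ A) (hy : y ∉ X) (hy' : y ∈ B) : h X = 2 := by
  refine not_L hc hx hy (g.high X h1 h2 ?_ ?_)
  · rintro rfl; exact hx' hx
  · rintro rfl; exact hy hy'

theorem Gap.notL {A B : Finset V} (g : Gap h A B) {X : Finset V} (h1 : A ⊆ X)
    (h2 : X ⊆ B) {x y : V} (hx : x ∈ X) (hx' : x ∉ A) (hy : y ∉ X) (hy' : y ∈ B) : ¬ L h X := by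
  refine (g.high X h1 h2 ?_ ?_)
  · rintro rfl; exact hx' hx
  · rintro rfl; exact hy hy'

/-- F1: nonempty subsets of the lower end are low -/
theorem Gap.sub_low (hc : Core h) {A B : Finset V} (g : Gap h A B) {X : Finset V} (hX : X ⊆ A)
    {x : V} (hx : x ∈ X) : L h X := by
  obtain ⟨p, q, hpB, hqB, hpA, hqA, hpq⟩ := g.two
  have hhigh : h (insert p A) = 2 := g.h2 hc (X := insert p A) (x := p) (y := q)
    (subset_insert _ _) (insert_subset hpB g.sub) (mem_insert_self _ _) hpA
    (by simp [hqA, Ne.symm hpq]) hqB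
  have e := hc.sub A (insert p X)
  have e1 : A ∪ insert p X = insert p A := by
    ext z; simp only [mem_union, mem_insert]
    constructor
    · rintro (h | h | h)
      · exact Or.inr h
      · exact Or.inl h
      · exact Or.inr (hX h)
    · rintro (h | h)
      · exact Or.inr (Or.inl h)
      · exact Or.inl h
  have e2 : A ∩ insert p X = X := by
    ext z; simp only [mem_inter, mem_insert]
    constructor
    · rintro ⟨h, h' | h'⟩
      · exact absurd (h' ▸ h) hpA
      · exact h'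
    · intro h'; exact ⟨hX h', Or.inr h'⟩
  rw [e1, e2, hhigh] at e
  have := g.la.2.2
  have := hc.le2 (insert p X)
  exact L_of (y := p) hx (fun hp => hpA (hX hp)) (by omega)

/-- F2: proper supersets of the upper end are low -/
theorem Gap.sup_low (hc : Core h) {A B : Finset V} (g : Gap h A B) {X : Finset V} (hX : B ⊆ X)
    {x : V} (hx : x ∉ X) : L h X := by
  obtain ⟨p, q, hpB, hqB, hpA, hqA, hpq⟩ := g.two
  have hhigh : h (B.erase p) = 2 := g.h2 hc (X := B.erase p) (x := q) (y := p)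
    (fun z hz => mem_erase.2 ⟨fun h => hpA (h ▸ hz), g.sub hz⟩) (erase_subset _ _)
    (mem_erase.2 ⟨Ne.symm hpq, hqB⟩) hqA (by simp) hpB
  have e := hc.sub B (X.erase p)
  have e1 : B ∪ X.erase p = X := by
    ext z; simp only [mem_union, mem_erase]
    constructor
    · rintro (h | h)
      · exact hX h
      · exact h.2
    · intro h
      by_cases hz : z = p
      · left; rw [hz]; exact hpB
      · right; exact ⟨hz, h⟩
  have e2 : B ∩ X.erase p = B.erase p := by
    ext z; simp only [mem_inter, mem_erase]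
    constructor
    · rintro ⟨h, h', _⟩; exact ⟨h', h⟩
    · rintro ⟨h, h'⟩; exact ⟨h', h, hX h'⟩
  rw [e1, e2, hhigh] at e
  have := g.lb.2.2
  have := hc.le2 (X.erase p)
  obtain ⟨b, hb⟩ := ex_mem g.lb
  exact L_of (x := b) (hX hb) hx (by omega)

/-- F3 -/
theorem Gap.compl_low (hc : Core h) (hq : QS h) {A B : Finset V} (g : Gap h A B) {E : Finset V}
    (hE : ∀ x ∈ E, x ∈ B ∧ x ∉ A) : L h (Bᶜ ∪ E) := by
  obtain ⟨a0, ha0⟩ := ex_mem g.la
  obtain ⟨w0, hw0⟩ := ex_not g.lb
  have st1 : ∀ p q, p ∈ B → p ∉ A → q ∈ B → q ∉ A → p ≠ q →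
      ∃ S, L h S ∧ q ∈ S ∧ p ∉ S ∧ Bᶜ ⊆ S ∧ (∀ z ∈ A, z ∉ S) := by
    intro p q hpB hpA hqB hqA hpq
    obtain ⟨S, h1, h2, h3, h4, h5⟩ := sep hc (G := {q}) (H := {p}) (P := Bᶜ) (Q := A)
      (g := q) (k := p) (p0 := w0) (q0 := a0) (by simp) (by simp) (by simp [hw0]) ha0 (by
        intro w hw u hu
        have hwB : w ∉ B := by simpa using hw
        have huB : u ∈ B := g.sub hu
        have n1 : u ≠ p := fun h => hpA (h ▸ hu)
        have n2 : u ≠ q := fun h => hqA (h ▸ hu)
        have n3 : u ≠ w := fun h => hwB (h ▸ huB)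
        have n4 : p ≠ w := fun h => hwB (h ▸ hpB)
        have n5 : q ≠ w := fun h => hwB (h ▸ hqB)
        obtain ⟨S, hS, hcase⟩ := hq u p q w n1 n2 n3 hpq n4 n5
        rcases hcase with ⟨c1, c2, c3, c4⟩ | ⟨c1, c2, c3, c4⟩
        · exfalso
          have k1 := (cross hc hS g.la c1 hu c3 hqA).2
          have k2 := (cross hc k1 g.lb (x := u) (y := w) (mem_union_left _ c1) huB
            (by simp only [mem_union, not_or]; exact ⟨c4, fun h => hwB (g.sub h)⟩) hwB).1
          refine g.notL (X := (S ∪ A) ∩ B) (x := p) (y := q) ?_ inter_subset_right ?_ hpA ?_ hqB k2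
          · intro z hz; exact mem_inter.2 ⟨mem_union_right _ hz, g.sub hz⟩
          · exact mem_inter.2 ⟨mem_union_left _ c2, hpB⟩
          · simp only [mem_inter, mem_union, not_and_or, not_or]; exact Or.inl ⟨c3, hqA⟩
        · exact ⟨S, hS, by simpa using c3, by simpa using c2, c4, c1⟩)
    exact ⟨S, h1, h2 (by simp), h3 p (by simp), h4, h5⟩
  obtain ⟨p, q, hpB, hqB, hpA, hqA, hpq⟩ := g.two
  obtain ⟨S, h1, h2, h3, h4, h5⟩ := sep hc (G := Bᶜ) (H := A) (P := Bᶜ ∪ E)
      (Q := A ∪ ((B \ A) \ E))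
      (g := w0) (k := a0) (p0 := w0) (q0 := a0) (by simp [hw0]) ha0 (by simp [hw0]) (by simp [ha0])
      (by
        intro s hs t ht
        -- choose distinct x y in D with (s in D -> y = s), (t in D -> x = t)
        have key : ∃ x y, x ∈ B ∧ x ∉ A ∧ y ∈ B ∧ y ∉ A ∧ x ≠ y ∧ (s ∈ B → y = s) ∧
            (t ∉ A → x = t) := by
          by_cases hsB : s ∈ B
          · have hsE : s ∈ E := by
              rcases mem_union.1 hs with h | h
              · exact absurd hsB (by simpa using h)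
              · exact h
            have hsA := (hE s hsE).2
            by_cases htA : t ∈ A
            · by_cases hps : p = s
              · exact ⟨q, s, hqB, hqA, hsB, hsA, fun h => hpq (hps.trans h.symm), fun _ => rfl,
                  fun h => absurd htA h⟩
              · exact ⟨p, s, hpB, hpA, hsB, hsA, hps, fun _ => rfl, fun h => absurd htA h⟩
            · have ht' : t ∈ (B \ A) \ E := by
                rcases mem_union.1 ht with h | h
                · exact absurd h htA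
                · exact h
              simp only [mem_sdiff] at ht'
              exact ⟨t, s, ht'.1.1, ht'.1.2, hsB, hsA, fun h => ht'.2 (h ▸ hsE), fun _ => rfl,
                fun _ => rfl⟩
          · by_cases htA : t ∈ A
            · exact ⟨p, q, hpB, hpA, hqB, hqA, hpq, fun h => absurd h hsB,
                fun h => absurd htA h⟩
            · have ht' : t ∈ (B \ A) \ E := by
                rcases mem_union.1 ht with h | h
                · exact absurd h htA
                · exact h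
              simp only [mem_sdiff] at ht'
              by_cases hpt : p = t
              · exact ⟨t, q, ht'.1.1, ht'.1.2, hqB, hqA, fun h => hpq (hpt.trans h),
                  fun h => absurd h hsB, fun _ => rfl⟩
              · exact ⟨t, p, ht'.1.1, ht'.1.2, hpB, hpA, fun h => hpt h.symm,
                  fun h => absurd h hsB, fun _ => rfl⟩
        obtain ⟨x, y, hxB, hxA, hyB, hyA, hxy, hs', ht'⟩ := key
        obtain ⟨S, k1, k2, k3, k4, k5⟩ := st1 x y hxB hxA hyB hyA hxy
        refine ⟨S, k1, k4, k5, ?_, ?_⟩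
        · by_cases hsB : s ∈ B
          · rw [← hs' hsB]; exact k2
          · exact k4 (by simpa using hsB)
        · by_cases htA : t ∈ A
          · exact k5 t htA
          · rw [← ht' htA]; exact k3)
  have : S = Bᶜ ∪ E := by
    ext z
    constructor
    · intro hz
      by_contra hcon
      simp only [mem_union, mem_compl, not_or, not_not] at hcon
      refine h5 z ?_ hz
      by_cases hzA : z ∈ A
      · exact mem_union_left _ hzA
      · exact mem_union_right _ (by simp [hcon.1, hcon.2, hzA])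
    · intro hz; exact h4 hz
  rw [← this]; exact h1

end Pool.Agent.Run7.h836.Frank
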