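import Pool.Agent.Run7.h836.Frank.Vertex

namespace Pool.Agent.Run7.h836.Frank

open Finset
set_option linter.unusedSectionVars false

variable {V : Type*} [Fintype V] [DecidableEq V] {h : Finset V → ℤ}

theorem dec (hsub : ∀ S T, h (S ∪ T) + h (S ∩ T) ≤ h S + h T) (hnn : ∀ S, 0 ≤ h S)
    (h0 : h ∅ = 0) (hle : ∀ S, h S ≤ 2)
    (hinc : ∀ S x, h (insert x S) ≤ h S + 1 ∧ h S ≤ h (insert x S) + 1) :
    ∀ (k : ℕ) (Z : Finset V), Z.card ≤ k → h Z = 0 → ∃ y : V → ℤ,
      (∀ S, S ⊆ Z → ∑ i ∈ S, y i ≤ h S ∧ - h S ≤ ∑ i ∈ S, y i) ∧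
      (∀ x : V → ℝ, (∀ S, S ⊆ Z → ∑ i ∈ S, y i = h S → ∑ i ∈ S, x i = (h S : ℝ)) →
        ∀ i ∈ Z, x i = (y i : ℝ)) := by
  intro k
  induction k with
  | zero =>
    intro Z hZ _
    have : Z = ∅ := Finset.card_eq_zero.1 (by omega)
    subst this
    refine ⟨fun _ => 0, ?_, ?_⟩
    · intro S hS
      have : S = ∅ := Finset.subset_empty.1 hS
      subst this; simp [h0]
    · intro x _ i hi; simp at hi
  | succ k ih =>
    intro Z hZ hZ0
    by_cases hZe : Z = ∅
    · exact ih Z (by rw [hZe]; simp) hZ0
    have hne : ((Z.powerset.filter (fun S => h S = 0 ∧ S ≠ Z))).Nonempty :=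
      ⟨∅, by simp [h0, Ne.symm hZe]⟩
    obtain ⟨Z1, hZ1, hmax⟩ := exists_max_image _ Finset.card hne
    simp only [mem_filter, mem_powerset] at hZ1 hmax
    obtain ⟨hZ1Z, hZ10, hZ1ne⟩ := hZ1
    have hlt : Z1.card < Z.card := card_lt_card ⟨hZ1Z, fun h' => hZ1ne (Finset.Subset.antisymm hZ1Z h')⟩
    obtain ⟨y1, hy1, hy1'⟩ := ih Z1 (by omega) hZ10
    let W := Z \ Z1
    let emb : {x // x ∈ W} ↪ V := Function.Embedding.subtype _
    let h' : Finset {x // x ∈ W} → ℤ := fun S => h (Z1 ∪ S.map emb)
    have hmapW : ∀ S : Finset {x // x ∈ W}, ∀ z ∈ S.map emb, z ∈ Z ∧ z ∉ Z1 := by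
      intro S z hz
      obtain ⟨t, _, rfl⟩ := mem_map.1 hz
      have := t.2
      simp only [W, mem_sdiff] at this
      exact this
    have huniv : Z1 ∪ (univ : Finset {x // x ∈ W}).map emb = Z := by
      ext z
      constructor
      · intro hz
        rcases mem_union.1 hz with hz | hz
        · exact hZ1Z hz
        · exact (hmapW _ z hz).1
      · intro hz
        by_cases hz1 : z ∈ Z1
        · exact mem_union_left _ hz1
        · refine mem_union_right _ (mem_map.2 ⟨⟨z, by simp [W, hz, hz1]⟩, mem_univ _, rfl⟩)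
    have hcore : Core h' := by
      refine ⟨?_, ?_, ?_, ?_, ?_⟩
      · intro S T
        have e := hsub (Z1 ∪ S.map emb) (Z1 ∪ T.map emb)
        have e1 : (Z1 ∪ S.map emb) ∪ (Z1 ∪ T.map emb) = Z1 ∪ (S ∪ T).map emb := by
          rw [map_union]; ext z; simp only [mem_union]; tauto
        have e2 : (Z1 ∪ S.map emb) ∩ (Z1 ∪ T.map emb) = Z1 ∪ (S ∩ T).map emb := by
          rw [map_inter, union_inter_distrib_left]
        rw [e1, e2] at e
        exact e
      · intro S hS hS'
        have hn := hnn (Z1 ∪ S.map emb)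
        by_contra hcon
        have hz : h (Z1 ∪ S.map emb) = 0 := by
          simp only [h'] at hcon; omega
        obtain ⟨s, hs⟩ := Finset.nonempty_iff_ne_empty.2 hS
        have hsm : (s : V) ∈ S.map emb := mem_map.2 ⟨s, hs, rfl⟩
        have hssub : Z1 ∪ S.map emb ⊆ Z := by
          intro z hz
          rcases mem_union.1 hz with hz | hz
          · exact hZ1Z hz
          · exact (hmapW _ z hz).1
        have hneq : Z1 ∪ S.map emb ≠ Z := by
          intro heq
          apply hS'
          ext t
          simp only [mem_univ, iff_true]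
          have ht := t.2
          simp only [W, mem_sdiff] at ht
          have : (t : V) ∈ Z1 ∪ S.map emb := by rw [heq]; exact ht.1
          rcases mem_union.1 this with h' | h'
          · exact absurd h' ht.2
          · obtain ⟨t', ht', hte⟩ := mem_map.1 h'
            have : t' = t := Subtype.ext hte
            rw [← this]; exact ht'
        have := hmax _ ⟨hssub, hz, hneq⟩
        have hlt2 : Z1.card < (Z1 ∪ S.map emb).card := by
          apply card_lt_card
          refine ⟨subset_union_left, fun h' => ?_⟩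
          exact (hmapW S s hsm).2 (h' (mem_union_right _ hsm))
        omega
      · intro S; exact hle _
      · intro v
        have e : Z1 ∪ ({v} : Finset {x // x ∈ W}).map emb = insert (v : V) Z1 := by
          ext z; simp only [mem_union, map_singleton, mem_singleton, mem_insert]
          exact Or.comm
        have := (hinc Z1 v).1
        simp only [h', e]
        omega
      · intro v
        have e : insert (v : V) (Z1 ∪ ({v}ᶜ : Finset {x // x ∈ W}).map emb) = Z := by
          rw [← huniv]
          ext z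
          simp only [mem_insert, mem_union, mem_map, mem_univ, true_and, mem_compl, mem_singleton]
          constructor
          · rintro (rfl | hz | ⟨t, _, ht⟩)
            · exact Or.inr ⟨v, rfl⟩
            · exact Or.inl hz
            · exact Or.inr ⟨t, ht⟩
          · rintro (hz | ⟨t, ht⟩)
            · exact Or.inr (Or.inl hz)
            · by_cases htv : t = v
              · left; rw [← ht, htv]; rfl
              · exact Or.inr (Or.inr ⟨t, htv, ht⟩)
        have := (hinc (Z1 ∪ ({v}ᶜ : Finset {x // x ∈ W}).map emb) v).2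
        rw [e, hZ0] at this
        simp only [h']
        omega
    obtain ⟨y2, hy2, hy2'⟩ := core_vertex hcore (by simp [h', hZ10]) (by
      show h _ = 0
      rw [huniv]; exact hZ0)
    let y : V → ℤ := fun i => if i ∈ Z1 then y1 i else if hi : i ∈ W then y2 ⟨i, hi⟩ else 0
    have yZ1 : ∀ S, S ⊆ Z1 → ∑ i ∈ S, y i = ∑ i ∈ S, y1 i := by
      intro S hS
      refine sum_congr rfl (fun i hi => ?_)
      simp [y, hS hi]
    have yW : ∀ S : Finset {x // x ∈ W}, ∑ i ∈ S.map emb, y i = ∑ t ∈ S, y2 t := by
      intro S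
      rw [sum_map]
      refine sum_congr rfl (fun t _ => ?_)
      have ht := t.2
      have ht' := ht
      simp only [W, mem_sdiff] at ht'
      show (if (t : V) ∈ Z1 then y1 t else if hi : (t : V) ∈ W then y2 ⟨t, hi⟩ else 0) = y2 t
      rw [if_neg ht'.2, dif_pos ht]
    have hy1Z : ∑ i ∈ Z1, y1 i = 0 := by
      have := hy1 Z1 (Finset.Subset.refl _)
      rw [hZ10] at this
      omega
    have hdisj : ∀ S : Finset {x // x ∈ W}, Disjoint Z1 (S.map emb) := by
      intro S
      rw [Finset.disjoint_left]
      intro z hz hz'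
      exact (hmapW S z hz').2 hz
    refine ⟨y, ?_, ?_⟩
    · intro S hS
      let S2 : Finset {x // x ∈ W} := univ.filter (fun t => (t : V) ∈ S)
      have e1 : S2.map emb = S \ Z1 := by
        ext z
        simp only [mem_map, mem_filter, mem_univ, true_and, S2, mem_sdiff]
        constructor
        · rintro ⟨t, ht, rfl⟩
          have := t.2
          simp only [W, mem_sdiff] at this
          exact ⟨ht, this.2⟩
        · rintro ⟨hz, hz'⟩
          exact ⟨⟨z, by simp [W, hS hz, hz']⟩, hz, rfl⟩
      have e2 : ∑ i ∈ S, y i = ∑ i ∈ S ∩ Z1, y1 i + ∑ t ∈ S2, y2 t := by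
        rw [← yW, e1, ← yZ1 (S ∩ Z1) inter_subset_right]
        rw [← sum_union]
        · congr 1
          ext z; simp only [mem_union, mem_inter, mem_sdiff]; tauto
        · rw [Finset.disjoint_left]
          intro z hz hz'
          exact (mem_sdiff.1 hz').2 (mem_inter.1 hz).2
      have e3 := hy1 (S ∩ Z1) inter_subset_right
      have e4 := hy2 S2
      have e5 : h' S2 = h (S ∪ Z1) := by
        show h (Z1 ∪ S2.map emb) = _
        rw [e1]; congr 1
        ext z; simp only [mem_union, mem_sdiff]; tauto
      have e6 := hsub S Z1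
      rw [hZ10] at e6
      rw [e5] at e4
      rw [e2]
      constructor <;> omega
    · intro x hx i hi
      by_cases hi1 : i ∈ Z1
      · have := hy1' x (fun S hS hS' => hx S (hS.trans hZ1Z) (by rw [yZ1 S hS]; exact hS')) i hi1
        rw [this]
        simp [y, hi1]
      · have hiW : i ∈ W := by simp [W, hi, hi1]
        have hxZ1 : ∑ i ∈ Z1, x i = 0 := by
          have := hx Z1 hZ1Z (by rw [yZ1 Z1 (Finset.Subset.refl _), hy1Z, hZ10])
          rw [hZ10] at this; simpa using this
        have := hy2' (fun t => x t) (by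
          intro S hS
          have hsub' : Z1 ∪ S.map emb ⊆ Z := by
            intro z hz
            rcases mem_union.1 hz with hz | hz
            · exact hZ1Z hz
            · exact (hmapW _ z hz).1
          have e := hx (Z1 ∪ S.map emb) hsub' (by
            rw [sum_union (hdisj S), yW, yZ1 Z1 (Finset.Subset.refl _), hy1Z, hS, zero_add])
          rw [sum_union (hdisj S), hxZ1, zero_add, sum_map] at e
          exact e) ⟨i, hiW⟩
        rw [this]
        simp [y, hi1, hiW]

end Pool.Agent.Run7.h836.Frank
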