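import Pool.Agent.Run7.h836.Frank.Main

namespace Pool.Agent.Run7.h836.Frank

open Finset
set_option linter.unusedSectionVars false

variable {V : Type*} [Fintype V] [DecidableEq V] {h : Finset V → ℤ}

theorem inside (hc : Core h) (hq : QS h) (nfc : ∀ u w : V, u ≠ w → ¬ FC h {u} {w}ᶜ)
    {A B A2 B2 : Finset V} (g : Gap h A B) (g2 : Gap h A2 B2) (hd : ∀ z ∈ B2, z ∉ B) : False := by
  obtain ⟨p, q, hpB, hqB, hpA, hqA, hpq⟩ := g.two
  obtain ⟨a0, ha0⟩ := ex_mem g.la
  -- B ∪ B2 = univ
  have hu : ∀ z, z ∉ B → z ∈ B2 := by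
    by_contra hcon
    push Not at hcon
    obtain ⟨y, hyB, hyB2⟩ := hcon
    have h1 : h (B.erase p) = 2 := g.h2 hc (X := B.erase p) (x := q) (y := p)
      (fun z hz => mem_erase.2 ⟨fun h => hpA (h ▸ hz), g.sub hz⟩) (erase_subset _ _)
      (mem_erase.2 ⟨Ne.symm hpq, hqB⟩) hqA (by simp) hpB
    have hpB2 : p ∉ B2 := fun h' => hd p h' hpB
    have h2 := (g2.sup_low hc (X := B.erase p ∪ B2) (x := p) subset_union_right
      (by simp [hpB2])).2.2
    have e := hc.sub B (B.erase p ∪ B2)
    have e1 : B ∪ (B.erase p ∪ B2) = B ∪ B2 := by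
      ext z
      simp only [mem_union, mem_erase]
      constructor
      · rintro (h' | ⟨_, h'⟩ | h')
        · exact Or.inl h'
        · exact Or.inl h'
        · exact Or.inr h'
      · rintro (h' | h')
        · exact Or.inl h'
        · exact Or.inr (Or.inr h')
    have e2 : B ∩ (B.erase p ∪ B2) = B.erase p := by
      ext z
      simp only [mem_inter, mem_union, mem_erase]
      constructor
      · rintro ⟨h', h'' | h''⟩
        · exact h''
        · exact absurd h' (hd z h'')
      · rintro ⟨h', h''⟩; exact ⟨h'', Or.inl ⟨h', h''⟩⟩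
    rw [e1, e2, h1] at e
    have := hc.pos (B ∪ B2) (ne_emp (x := p) (by simp [hpB])) (ne_uni (x := y) (by simp [hyB, hyB2]))
    have := g.lb.2.2
    omega
  have hB2 : B2 = Bᶜ := by
    ext z; simp only [mem_compl]
    exact ⟨hd z, hu z⟩
  subst hB2
  have hA2B : ∀ z ∈ A2, z ∉ B := fun z hz => by simpa using g2.sub hz
  have hK := KL hc hq g g2
  have hpK : p ∈ (A ∪ A2)ᶜ := by
    simp only [mem_compl, mem_union, not_or]; exact ⟨hpA, fun h' => hA2B p h' hpB⟩
  -- a gap above K
  obtain ⟨A4, B4, g4, hKA4⟩ : ∃ A4 B4, Gap h A4 B4 ∧ (A ∪ A2)ᶜ ⊆ A4 := by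
    by_contra hcon
    push Not at hcon
    have hpa : p ≠ a0 := fun h' => hpA (h' ▸ ha0)
    have f1 : FC h {p} (A ∪ A2)ᶜ := fill _ _ _ (le_refl _) (L_one hc hpa) hK (by simpa using hpK)
      (by
        intro A' B' _ h2 g'
        obtain ⟨r, s, hr, hs, hrA, hsA, hrs⟩ := g'.two
        refine g'.notL (X := insert r A') (x := r) (y := s) (subset_insert _ _)
          (insert_subset hr g'.sub) (mem_insert_self _ _) hrA (by simp [hsA, Ne.symm hrs]) hs ?_
        exact L_of (x := r) (y := s) (mem_insert_self _ _) (by simp [hsA, Ne.symm hrs])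
          (K_sub hc hq g g2 hK _ _ ((insert_subset hr g'.sub).trans h2) (le_refl _)))
    have f2 : FC h (A ∪ A2)ᶜ {a0}ᶜ := fill _ _ _ (le_refl _) hK (L_cone hc hpa)
      (by
        intro z hz
        simp only [mem_compl, mem_union, not_or, mem_singleton] at hz ⊢
        exact fun h' => hz.1 (h' ▸ ha0))
      (by
        intro A' B' h1 _ g'
        exact hcon A' B' g' h1)
    exact nfc p a0 hpa (FC.trans _ _ _ f1 f2)
  have hpA4 : p ∈ A4 := hKA4 hpK
  obtain ⟨e, e', he, he', heA, he'A, hee⟩ := g2.two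
  have heB : e ∉ B := by simpa using he
  have he'B : e' ∉ B := by simpa using he'
  have heK : e ∈ (A ∪ A2)ᶜ := by
    simp only [mem_compl, mem_union, not_or]; exact ⟨fun h' => heB (g.sub h'), heA⟩
  have heA4 : e ∈ A4 := hKA4 heK
  have hA4 : A4 = (A ∪ A2)ᶜ := by
    apply Finset.Subset.antisymm _ hKA4
    intro z hz
    simp only [mem_compl, mem_union, not_or]
    constructor
    · intro hzA
      have k1 : L h {z, p} := g4.sub_low hc (X := {z, p}) (x := z)
        (by intro t ht; simp only [mem_insert, mem_singleton] at ht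
            rcases ht with rfl | rfl
            · exact hz
            · exact hpA4) (by simp)
      have hqz : q ∉ ({z, p} : Finset V) := by
        simp only [mem_insert, mem_singleton, not_or]
        exact ⟨fun h' => hqA (h' ▸ hzA), Ne.symm hpq⟩
      have k2 := (cross hc k1 g.la (x := z) (y := q) (by simp) hzA hqz hqA).2
      refine g.notL (X := {z, p} ∪ A) (x := p) (y := q) subset_union_right ?_ (by simp) hpA
        (by simp only [mem_union, not_or]; exact ⟨hqz, hqA⟩) hqB k2
      intro t ht
      simp only [mem_union, mem_insert, mem_singleton] at ht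
      rcases ht with (rfl | rfl) | ht
      · exact g.sub hzA
      · exact hpB
      · exact g.sub ht
    · intro hzA
      have k1 : L h {z, e} := g4.sub_low hc (X := {z, e}) (x := z)
        (by intro t ht; simp only [mem_insert, mem_singleton] at ht
            rcases ht with rfl | rfl
            · exact hz
            · exact heA4) (by simp)
      have hqz : e' ∉ ({z, e} : Finset V) := by
        simp only [mem_insert, mem_singleton, not_or]
        exact ⟨fun h' => he'A (h' ▸ hzA), Ne.symm hee⟩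
      have k2 := (cross hc k1 g2.la (x := z) (y := e') (by simp) hzA hqz he'A).2
      refine g2.notL (X := {z, e} ∪ A2) (x := e) (y := e') subset_union_right ?_ (by simp) heA
        (by simp only [mem_union, not_or]; exact ⟨hqz, he'A⟩) he' k2
      intro t ht
      simp only [mem_union, mem_insert, mem_singleton] at ht
      rcases ht with (rfl | rfl) | ht
      · exact g2.sub hzA
      · exact he
      · exact g2.sub ht
  subst hA4
  obtain ⟨r, _, hr, _, hrK, _, _⟩ := g4.two
  simp only [mem_compl, mem_union, not_not] at hrK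
  rcases hrK with h' | h'
  · exact fin_step hc hq g g2 g4 hr h'
  · have g' : Gap h A (Bᶜ)ᶜ := by rw [compl_compl]; exact g
    have g4' : Gap h (A2 ∪ A)ᶜ B4 := by rw [union_comm]; exact g4
    exact fin_step hc hq g2 g' g4' hr h'

/-! duality -/

def dual (h : Finset V → ℤ) : Finset V → ℤ := fun S => h Sᶜ

theorem Core.dual (hc : Core h) : Core (dual h) where
  sub S T := by
    have := hc.sub Sᶜ Tᶜ
    simp only [Frank.dual, compl_union, compl_inter]
    linarith
  pos S h1 h2 := by
    refine hc.pos Sᶜ ?_ ?_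
    · intro h3; apply h2; rw [← compl_compl S, h3, compl_empty]
    · intro h3; apply h1; rw [← compl_compl S, h3, compl_univ]
  le2 S := hc.le2 _
  one v := hc.cone v
  cone v := by simpa [Frank.dual] using hc.one v

theorem L_dual {S : Finset V} (hS : L h S) : L (dual h) Sᶜ := by
  obtain ⟨h1, h2, h3⟩ := hS
  refine ⟨?_, ?_, ?_⟩
  · intro h'; apply h2; rw [← compl_compl S, h', compl_empty]
  · intro h'; apply h1; rw [← compl_compl S, h', compl_univ]
  · simpa [dual] using h3

theorem L_dual' {S : Finset V} (hS : L (dual h) S) : L h Sᶜ := by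
  obtain ⟨h1, h2, h3⟩ := hS
  refine ⟨?_, ?_, ?_⟩
  · intro h'; apply h2; rw [← compl_compl S, h', compl_empty]
  · intro h'; apply h1; rw [← compl_compl S, h', compl_univ]
  · simpa [dual] using h3

theorem QS_dual (hq : QS h) : QS (dual h) := by
  intro a b c d h1 h2 h3 h4 h5 h6
  obtain ⟨S, hS, hcase⟩ := hq a b c d h1 h2 h3 h4 h5 h6
  refine ⟨Sᶜ, L_dual hS, ?_⟩
  simp only [mem_compl, not_not]
  rcases hcase with h' | h'
  · exact Or.inr h'
  · exact Or.inl h'

theorem Gap_dual {A B : Finset V} (g : Gap h A B) : Gap (dual h) Bᶜ Aᶜ where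
  la := L_dual g.lb
  lb := L_dual g.la
  sub := compl_subset_compl.2 g.sub
  two := by
    obtain ⟨p, q, hpB, hqB, hpA, hqA, hpq⟩ := g.two
    exact ⟨p, q, by simp [hpA], by simp [hqA], by simp [hpB], by simp [hqB], hpq⟩
  high := by
    intro X h1 h2 h3 h4 hX
    refine g.high Xᶜ ?_ ?_ ?_ ?_ (L_dual' hX)
    · intro z hz; simp only [mem_compl]; intro hz'; simpa [hz] using h2 hz'
    · intro z hz
      by_contra hzB
      exact (mem_compl.1 hz) (h1 (by simp [hzB]))
    · intro h'; apply h4; rw [← h', compl_compl]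
    · intro h'; apply h3; rw [← h', compl_compl]

theorem FC_dual {A B : Finset V} (f : FC (dual h) A B) : FC h Bᶜ Aᶜ := by
  induction f with
  | refl A hA => exact FC.refl _ (L_dual' hA)
  | step A x hx hA hB =>
    have e : Aᶜ = insert x (insert x A)ᶜ := by
      ext z
      simp only [mem_compl, mem_insert, not_or]
      constructor
      · intro hz
        by_cases hzx : z = x
        · exact Or.inl hzx
        · exact Or.inr ⟨hzx, hz⟩
      · rintro (rfl | hz)
        · exact hx
        · exact hz.2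
    have hA' := L_dual' hA
    rw [e] at hA' ⊢
    exact FC.step _ x (by simp) (L_dual' hB) hA'
  | trans A B C _ _ h1 h2 => exact FC.trans _ _ _ h2 h1

theorem comb (hc : Core h) (hq : QS h) {u w : V} (huw : u ≠ w) :
    ∃ u w : V, u ≠ w ∧ FC h {u} {w}ᶜ := by
  by_contra hcon
  have nfc : ∀ u w : V, u ≠ w → ¬ FC h {u} {w}ᶜ := fun u w h1 h2 => hcon ⟨u, w, h1, h2⟩
  obtain ⟨A, B, g⟩ : ∃ A B, Gap h A B := by
    by_contra hng
    push Not at hng
    exact nfc u w huw (fill _ _ _ (le_refl _) (L_one hc huw) (L_cone hc huw)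
      (by simp [Ne.symm huw]) (fun A' B' _ _ => hng A' B'))
  obtain ⟨a0, ha0⟩ := ex_mem g.la
  obtain ⟨c0, hc0⟩ := ex_not g.lb
  have hca : c0 ≠ a0 := fun h' => hc0 (h' ▸ g.sub ha0)
  have hLC : L h Bᶜ := by simpa using g.compl_low hc hq (E := ∅) (by simp)
  have e1 : Bᶜ ∪ (B \ A) = Aᶜ := by
    ext z
    simp only [mem_union, mem_compl, mem_sdiff]
    constructor
    · rintro (h' | h')
      · exact fun h'' => h' (g.sub h'')
      · exact h'.2
    · intro h'
      by_cases hz : z ∈ B
      · exact Or.inr ⟨hz, h'⟩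
      · exact Or.inl hz
  have hLA : L h Aᶜ := by
    have := g.compl_low hc hq (E := B \ A) (by intro z hz; simpa using hz)
    rwa [e1] at this
  by_cases c1 : ∃ A' B', Gap h A' B' ∧ B' ⊆ Bᶜ
  · obtain ⟨A', B', g', hB'⟩ := c1
    exact inside hc hq nfc g g' (fun z hz => by simpa using hB' hz)
  by_cases c2 : ∃ A' B', Gap h A' B' ∧ Aᶜ ⊆ A'
  · obtain ⟨A', B', g', hA'⟩ := c2
    refine inside (Core.dual hc) (QS_dual hq) ?_ (Gap_dual g) (Gap_dual g') ?_
    · intro u w huw f
      have := FC_dual f
      rw [compl_compl] at this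
      exact nfc w u (Ne.symm huw) this
    · intro z hz
      simp only [mem_compl, not_not] at hz ⊢
      by_contra hzA
      exact hz (hA' (by simp [hzA]))
  have f1 : FC h {c0} Bᶜ := fill _ _ _ (le_refl _) (L_one hc hca) hLC (by simp [hc0])
    (fun A' B' _ h2 g' => c1 ⟨A', B', g', h2⟩)
  have f2 : FC h Bᶜ Aᶜ := fill _ _ _ (le_refl _) hLC hLA (compl_subset_compl.2 g.sub) (by
    intro A' B' h1 h2 g'
    obtain ⟨r, s, hr, hs, hrA, hsA, hrs⟩ := g'.two
    refine g'.notL (X := insert r A') (x := r) (y := s) (subset_insert _ _)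
      (insert_subset hr g'.sub) (mem_insert_self _ _) hrA (by simp [hsA, Ne.symm hrs]) hs ?_
    have k := g.compl_low hc hq (E := (insert r A') ∩ B) (by
      intro z hz
      have hz1 := (mem_inter.1 hz).1
      have := h2 ((insert_subset hr g'.sub) hz1)
      exact ⟨(mem_inter.1 hz).2, by simpa using this⟩)
    have e : Bᶜ ∪ (insert r A') ∩ B = insert r A' := by
      ext z
      simp only [mem_union, mem_inter, mem_compl, mem_insert]
      constructor
      · rintro (h' | h')
        · exact Or.inr (h1 (by simp [h']))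
        · exact h'.1
      · intro h'
        by_cases hz : z ∈ B
        · exact Or.inr ⟨h', hz⟩
        · exact Or.inl hz
    rwa [e] at k)
  have f3 : FC h Aᶜ {a0}ᶜ := fill _ _ _ (le_refl _) hLA (L_cone hc hca)
    (compl_subset_compl.2 (by simpa using ha0)) (fun A' B' h1 _ g' => c2 ⟨A', B', g', h1⟩)
  exact nfc c0 a0 hca (FC.trans _ _ _ f1 (FC.trans _ _ _ f2 f3))

end Pool.Agent.Run7.h836.Frank
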