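import Pool.Agent.Run7.h836.Frank.Dec

namespace Pool.Agent.Run7.h836.Frank

open Finset
set_option linter.unusedSectionVars false

variable {n : ℕ}

/-- the elements of the original ground set in `S` -/
def pr (S : Finset (Option (Fin n))) : Finset (Fin n) := univ.filter (fun i => some i ∈ S)

theorem mem_pr {S : Finset (Option (Fin n))} {i : Fin n} : i ∈ pr S ↔ some i ∈ S := by
  simp [pr]

/-- the submodular function on one more element -/
def ext (p b : Finset (Fin n) → ℤ) (S : Finset (Option (Fin n))) : ℤ :=
  if none ∈ S then - p (pr S)ᶜ else b (pr S)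

theorem sum_none (S : Finset (Option (Fin n))) {M : Type*} [AddCommMonoid M]
    (y : Option (Fin n) → M) (hS : none ∉ S) : ∑ i ∈ S, y i = ∑ i ∈ pr S, y (some i) := by
  have : S = (pr S).map Function.Embedding.some := by
    ext z
    cases z with
    | none => simp [hS]
    | some i => simp [mem_pr]
  conv_lhs => rw [this]
  rw [sum_map]; rfl

theorem gmain (p b : Finset (Fin n) → ℤ) (p0 : p ∅ = 0) (b0 : b ∅ = 0)
    (psup : ∀ X Y, p X + p Y ≤ p (X ∪ Y) + p (X ∩ Y))
    (bsub : ∀ X Y, b (X ∪ Y) + b (X ∩ Y) ≤ b X + b Y)
    (pair : ∀ X Y, b (X \ Y) - p (Y \ X) ≤ b X - p Y)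
    (zero : ∀ A, p A ≤ 0 ∧ 0 ≤ b A)
    (cube : ∀ i, -1 ≤ p {i} ∧ b {i} ≤ 1)
    (two : ∀ A, -2 ≤ p A ∧ b A ≤ 2)
    (tot : -1 ≤ p univ ∧ b univ ≤ 1) :
    ∃ v ∈ Set.extremePoints ℝ
        {x : Fin n → ℝ | ∀ A : Finset (Fin n), (p A : ℝ) ≤ ∑ i ∈ A, x i ∧ ∑ i ∈ A, x i ≤ (b A : ℝ)},
      ∀ A : Finset (Fin n), (p A : ℝ) ≤ ∑ i ∈ A, (- v i) ∧ ∑ i ∈ A, (- v i) ≤ (b A : ℝ) := by
  have e_un : ∀ S T : Finset (Option (Fin n)), pr (S ∪ T) = pr S ∪ pr T := by
    intro S T; ext i; simp [mem_pr]
  have e_in : ∀ S T : Finset (Option (Fin n)), pr (S ∩ T) = pr S ∩ pr T := by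
    intro S T; ext i; simp [mem_pr]
  let h := ext p b
  have hsub : ∀ S T, h (S ∪ T) + h (S ∩ T) ≤ h S + h T := by
    intro S T
    have mixed : ∀ S T : Finset (Option (Fin n)), none ∈ S → none ∉ T →
        h (S ∪ T) + h (S ∩ T) ≤ h S + h T := by
      intro S T hS hT
      simp only [h, ext, e_un, e_in, mem_union, mem_inter, hS, hT, true_or, and_false, if_true,
        if_false]
      have e := pair (pr T) (pr S)ᶜ
      have e1 : pr T \ (pr S)ᶜ = pr S ∩ pr T := by
        ext i; simp only [mem_sdiff, mem_compl, mem_inter, not_not]; tauto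
      have e2 : (pr S)ᶜ \ pr T = (pr S ∪ pr T)ᶜ := by
        ext i; simp only [mem_sdiff, mem_compl, mem_union]; tauto
      rw [e1, e2] at e
      omega
    by_cases hS : none ∈ S <;> by_cases hT : none ∈ T
    · simp only [h, ext, e_un, e_in, mem_union, mem_inter, hS, hT, or_true, and_true, if_true]
      have e := psup (pr S)ᶜ (pr T)ᶜ
      rw [← compl_inter, ← compl_union] at e
      omega
    · exact mixed S T hS hT
    · have := mixed T S hT hS
      rw [union_comm, inter_comm]
      omega
    · simp only [h, ext, e_un, e_in, mem_union, mem_inter, hS, hT, or_false, and_false, if_false]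
      exact bsub _ _
  have hnn : ∀ S, 0 ≤ h S := by
    intro S
    simp only [h, ext]
    split_ifs
    · have := (zero (pr S)ᶜ).1; omega
    · exact (zero _).2
  have h0 : h ∅ = 0 := by
    have : pr (∅ : Finset (Option (Fin n))) = ∅ := by ext i; simp [mem_pr]
    simp [h, ext, this, b0]
  have hu : h univ = 0 := by
    have : (pr (univ : Finset (Option (Fin n))))ᶜ = ∅ := by ext i; simp [mem_pr]
    simp [h, ext, this, p0]
  have hle : ∀ S, h S ≤ 2 := by
    intro S
    simp only [h, ext]
    split_ifs
    · have := (two (pr S)ᶜ).1; omega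
    · exact (two _).2
  have hone : ∀ x, h {x} ≤ 1 := by
    intro x
    cases x with
    | none =>
      have : (pr ({none} : Finset (Option (Fin n))))ᶜ = univ := by ext i; simp [mem_pr]
      simp only [h, ext, mem_singleton, if_true, this]
      omega
    | some i =>
      have : pr ({some i} : Finset (Option (Fin n))) = {i} := by ext j; simp [mem_pr]
      simp only [h, ext, mem_singleton, reduceCtorEq, if_false, this]
      exact (cube i).2
  have hcone : ∀ x, h {x}ᶜ ≤ 1 := by
    intro x
    cases x with
    | none =>
      have : pr ({none}ᶜ : Finset (Option (Fin n))) = univ := by ext i; simp [mem_pr]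
      simp only [h, ext, mem_compl, mem_singleton, not_true_eq_false, if_false, this]
      omega
    | some i =>
      have : (pr ({some i}ᶜ : Finset (Option (Fin n))))ᶜ = {i} := by ext j; simp [mem_pr]
      have h1 : (none : Option (Fin n)) ∈ ({some i}ᶜ : Finset (Option (Fin n))) := by simp
      simp only [h, ext, h1, if_true, this]
      have := (cube i).1
      omega
  have hinc : ∀ S x, h (insert x S) ≤ h S + 1 ∧ h S ≤ h (insert x S) + 1 := by
    intro S x
    by_cases hx : x ∈ S
    · rw [insert_eq_of_mem hx]; constructor <;> omega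
    · have e1 := hsub {x} S
      have e2 : {x} ∪ S = insert x S := by ext z; simp
      have e3 : {x} ∩ S = ∅ := by
        ext z; simp only [mem_inter, mem_singleton, notMem_empty, iff_false, not_and]
        rintro rfl; exact hx
      rw [e2, e3, h0] at e1
      have e4 := hsub (insert x S) {x}ᶜ
      have e5 : insert x S ∪ {x}ᶜ = univ := by
        ext z; simp only [mem_union, mem_insert, mem_compl, mem_singleton, mem_univ, iff_true]
        tauto
      have e6 : insert x S ∩ {x}ᶜ = S := by
        ext z; simp only [mem_inter, mem_insert, mem_compl, mem_singleton]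
        constructor
        · rintro ⟨h' | h', h''⟩
          · exact absurd h' h''
          · exact h'
        · intro h'
          exact ⟨Or.inr h', fun h'' => hx (h'' ▸ h')⟩
      rw [e5, e6, hu] at e4
      have := hone x
      have := hcone x
      constructor <;> omega
  obtain ⟨y, hy1, hy2⟩ := dec hsub hnn h0 hle hinc (n + 1) univ (by simp) hu
  have yu : ∑ i, y i = 0 := by
    have := hy1 univ (subset_univ _)
    rw [hu] at this
    omega
  have prmap : ∀ A : Finset (Fin n), pr (A.map Function.Embedding.some) = A := by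
    intro A; ext i; simp [mem_pr]
  have nonemap : ∀ A : Finset (Fin n), none ∉ A.map Function.Embedding.some := by
    intro A; simp
  -- bounds for v
  have hv1 : ∀ A : Finset (Fin n), ∑ i ∈ A, y (some i) ≤ b A ∧ - b A ≤ ∑ i ∈ A, y (some i) := by
    intro A
    have e := hy1 (A.map Function.Embedding.some) (subset_univ _)
    rw [sum_none _ y (nonemap A), prmap] at e
    have : h (A.map Function.Embedding.some) = b A := by
      simp only [h, ext, nonemap A, if_false, prmap]
    rw [this] at e
    exact e
  have hv2 : ∀ A : Finset (Fin n), p A ≤ ∑ i ∈ A, y (some i) ∧ p A ≤ - ∑ i ∈ A, y (some i) := by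
    intro A
    have e := hy1 (A.map Function.Embedding.some)ᶜ (subset_univ _)
    have e1 := sum_add_sum_compl (A.map Function.Embedding.some) y
    rw [sum_none _ y (nonemap A), prmap, yu] at e1
    have : h (A.map Function.Embedding.some)ᶜ = - p A := by
      have h1 : (none : Option (Fin n)) ∈ (A.map Function.Embedding.some)ᶜ :=
        mem_compl.2 (nonemap A)
      have h2 : (pr (A.map Function.Embedding.some)ᶜ)ᶜ = A := by
        ext i; simp [mem_pr]
      simp only [h, ext, h1, if_true, h2]
    rw [this] at e
    constructor <;> omega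
  refine ⟨fun i => (y (some i) : ℝ), ?_, ?_⟩
  · rw [mem_extremePoints_iff_left]
    refine ⟨?_, ?_⟩
    · intro A
      have e1 := (hv2 A).1
      have e2 := (hv1 A).1
      show (p A : ℝ) ≤ ∑ i ∈ A, (y (some i) : ℝ) ∧ ∑ i ∈ A, (y (some i) : ℝ) ≤ (b A : ℝ)
      constructor
      · exact_mod_cast e1
      · exact_mod_cast e2
    · rintro x1 hx1 x2 hx2 ⟨a, c, ha, hc, hac, hv⟩
      have hcomb : ∀ A : Finset (Fin n), a * ∑ i ∈ A, x1 i + c * ∑ i ∈ A, x2 i =
          ((∑ i ∈ A, y (some i) : ℤ) : ℝ) := by
        intro A
        push_cast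
        rw [mul_sum, mul_sum, ← sum_add_distrib]
        refine sum_congr rfl (fun i _ => ?_)
        have := congrFun hv i
        simpa using this
      have t1 : ∀ A : Finset (Fin n), ∑ i ∈ A, y (some i) = b A → ∑ i ∈ A, x1 i = b A := by
        intro A hA
        have e := hcomb A
        rw [hA] at e
        have e4 := (hx1 A).2
        have e5 := mul_le_mul_of_nonneg_left (hx2 A).2 hc.le
        have e7 : a * (b A : ℝ) ≤ a * ∑ i ∈ A, x1 i := by
          have : (b A : ℝ) = a * b A + c * b A := by rw [← add_mul, hac, one_mul]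
          linarith
        have e8 := le_of_mul_le_mul_left e7 ha
        linarith
      have t2 : ∀ A : Finset (Fin n), ∑ i ∈ A, y (some i) = p A → ∑ i ∈ A, x1 i = p A := by
        intro A hA
        have e := hcomb A
        rw [hA] at e
        have e4 := (hx1 A).1
        have e5 := mul_le_mul_of_nonneg_left (hx2 A).1 hc.le
        have e7 : a * ∑ i ∈ A, x1 i ≤ a * (p A : ℝ) := by
          have : (p A : ℝ) = a * p A + c * p A := by rw [← add_mul, hac, one_mul]
          linarith
        have e8 := le_of_mul_le_mul_left e7 ha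
        linarith
      let X : Option (Fin n) → ℝ := fun o => match o with
        | none => - ∑ i, x1 i
        | some i => x1 i
      have Xsum : ∑ i, X i = 0 := by
        rw [Fintype.sum_option]
        simp [X]
      have Xnone : ∀ S : Finset (Option (Fin n)), none ∉ S → ∑ i ∈ S, X i = ∑ i ∈ pr S, x1 i := by
        intro S hS
        rw [sum_none S X hS]
      have hdet := hy2 X (by
        intro S _ hS
        by_cases hn : none ∈ S
        · have hn' : none ∉ Sᶜ := by simpa using hn
          have e1 := sum_add_sum_compl S y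
          have e2 := sum_add_sum_compl S X
          rw [yu, sum_none Sᶜ y hn'] at e1
          rw [Xsum, Xnone Sᶜ hn'] at e2
          have e3 : pr Sᶜ = (pr S)ᶜ := by ext i; simp [mem_pr]
          have e4 : h S = - p (pr S)ᶜ := by simp only [h, ext, hn, if_true]
          rw [e3] at e1 e2
          have e5 := t2 (pr S)ᶜ (by rw [e4] at hS; omega)
          rw [e4]
          push_cast
          linarith
        · rw [sum_none S y hn] at hS
          have e4 : h S = b (pr S) := by simp only [h, ext, hn, if_false]
          rw [e4] at hS ⊢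
          rw [Xnone S hn]
          exact t1 _ hS)
      funext i
      exact hdet (some i) (mem_univ _)
  · intro A
    have e1 := (hv2 A).2
    have e2 := (hv1 A).2
    have e3 : ∑ i ∈ A, (- (y (some i) : ℝ)) = ((- ∑ i ∈ A, y (some i) : ℤ) : ℝ) := by
      push_cast
      rw [sum_neg_distrib]
    simp only [e3]
    constructor
    · exact_mod_cast e1
    · have : - ∑ i ∈ A, y (some i) ≤ b A := by omega
      exact_mod_cast this

end Pool.Agent.Run7.h836.Frank
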