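import Pool.Agent.Run7.h836.Frank.Core

namespace Pool.Agent.Run7.h836.Frank

open Finset
set_option linter.unusedSectionVars false

variable {V : Type*} [Fintype V] [DecidableEq V] {h : Finset V → ℤ}

theorem FC.sub {A B : Finset V} (f : FC h A B) : A ⊆ B := by
  induction f with
  | refl A hA => exact Finset.Subset.refl _
  | step A x hx hA hB => exact subset_insert _ _
  | trans A B C _ _ h1 h2 => exact h1.trans h2

theorem fill : ∀ (n : ℕ) (A B : Finset V), (B \ A).card ≤ n → L h A → L h B →
    A ⊆ B → (∀ A' B', A ⊆ A' → B' ⊆ B → ¬ Gap h A' B') → FC h A B := by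
  intro n
  induction n with
  | zero =>
    intro A B hn hA hB hAB _
    have : B \ A = ∅ := Finset.card_eq_zero.1 (by omega)
    have hBA : B ⊆ A := sdiff_eq_empty_iff_subset.1 this
    have : A = B := Finset.Subset.antisymm hAB hBA
    subst this
    exact FC.refl _ hA
  | succ n ih =>
    intro A B hn hA hB hAB hng
    by_cases hBA : B ⊆ A
    · have : A = B := Finset.Subset.antisymm hAB hBA
      subst this
      exact FC.refl _ hA
    · obtain ⟨p, hpB, hpA⟩ := not_subset.1 hBA
      by_cases hBp : B = insert p A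
      · have := hB
        rw [hBp] at this
        rw [hBp]
        exact FC.step A p hpA hA this
      · have : ∃ q, q ∈ B ∧ q ∉ A ∧ q ≠ p := by
          by_contra hcon
          push Not at hcon
          apply hBp
          ext z
          simp only [mem_insert]
          constructor
          · intro hz
            by_cases hzA : z ∈ A
            · exact Or.inr hzA
            · exact Or.inl (hcon z hz hzA)
          · rintro (rfl | hz)
            · exact hpB
            · exact hAB hz
        obtain ⟨q, hqB, hqA, hqp⟩ := this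
        have hX : ∃ X, A ⊆ X ∧ X ⊆ B ∧ X ≠ A ∧ X ≠ B ∧ L h X := by
          by_contra hcon
          push Not at hcon
          exact hng A B (Finset.Subset.refl _) (Finset.Subset.refl _)
            ⟨hA, hB, hAB, ⟨p, q, hpB, hqB, hpA, hqA, Ne.symm hqp⟩, hcon⟩
        obtain ⟨X, hAX, hXB, hXA, hXB', hLX⟩ := hX
        have hssA : A ⊂ X := ⟨hAX, fun h' => hXA (Finset.Subset.antisymm h' hAX)⟩
        have hssB : X ⊂ B := ⟨hXB, fun h' => hXB' (Finset.Subset.antisymm hXB h')⟩
        have c1 : (X \ A).card < (B \ A).card := by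
          apply card_lt_card
          refine ⟨sdiff_subset_sdiff hXB (Finset.Subset.refl _), ?_⟩
          obtain ⟨z, hz, hz'⟩ := exists_of_ssubset hssB
          intro hsub
          have := hsub (mem_sdiff.2 ⟨hz, fun h' => hz' (hAX h')⟩)
          exact hz' (mem_sdiff.1 this).1
        have c2 : (B \ X).card < (B \ A).card := by
          apply card_lt_card
          refine ⟨sdiff_subset_sdiff (Finset.Subset.refl _) hAX, ?_⟩
          obtain ⟨z, hz, hz'⟩ := exists_of_ssubset hssA
          intro hsub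
          have := hsub (mem_sdiff.2 ⟨hXB hz, hz'⟩)
          exact (mem_sdiff.1 this).2 hz
        exact FC.trans A X B
          (ih A X (by omega) hA hLX hAX (fun A' B' h1 h2 => hng A' B' h1 (h2.trans hXB)))
          (ih X B (by omega) hLX hB hXB (fun A' B' h1 h2 => hng A' B' (hAX.trans h1) h2))

/-- the claim on two elements -/
theorem clm (hc : Core h) {A B K B4 : Finset V} (g : Gap h A B) (g4 : Gap h K B4) {d c : V}
    (hd : d ∈ B4) (hdK : d ∉ K) (hcB4 : c ∉ B4) (hdB : d ∉ B) (hcB : c ∉ B) : False := by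
  obtain ⟨p, q, hp, hq, hpK, hqK, hpq⟩ := g4.two
  obtain ⟨r, hr, hrK, hrd⟩ : ∃ r, r ∈ B4 ∧ r ∉ K ∧ r ≠ d := by
    by_cases hpd : p = d
    · exact ⟨q, hq, hqK, fun h' => hpq (hpd.trans h'.symm)⟩
    · exact ⟨p, hp, hpK, hpd⟩
  have h2 : h (B4.erase d) = 2 := g4.h2 hc (X := B4.erase d) (x := r) (y := d)
    (fun z hz => mem_erase.2 ⟨fun h' => hdK (h' ▸ hz), g4.sub hz⟩) (erase_subset _ _)
    (mem_erase.2 ⟨hrd, hr⟩) hrK (by simp) hd
  have hdc : d ≠ c := fun h' => hcB4 (h' ▸ hd)
  have hX : L h ({d, c} : Finset V)ᶜ := g.sup_low hc (x := c) (by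
    intro z hz
    simp only [mem_compl, mem_insert, mem_singleton, not_or]
    exact ⟨fun h' => hdB (h' ▸ hz), fun h' => hcB (h' ▸ hz)⟩) (by simp)
  have e := hc.sub B4 ({d, c} : Finset V)ᶜ
  have e1 : B4 ∪ ({d, c} : Finset V)ᶜ = {c}ᶜ := by
    ext z
    simp only [mem_union, mem_compl, mem_insert, mem_singleton, not_or]
    constructor
    · rintro (h' | h')
      · intro hz; exact hcB4 (hz ▸ h')
      · exact h'.2
    · intro h'
      by_cases hz : z = d
      · left; rw [hz]; exact hd
      · right; exact ⟨hz, h'⟩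
  have e2 : B4 ∩ ({d, c} : Finset V)ᶜ = B4.erase d := by
    ext z
    simp only [mem_inter, mem_compl, mem_insert, mem_singleton, not_or, mem_erase]
    constructor
    · rintro ⟨h1, h2, _⟩; exact ⟨h2, h1⟩
    · rintro ⟨h1, h2⟩; exact ⟨h2, h1, fun h' => hcB4 (h' ▸ h2)⟩
  rw [e1, e2, h2] at e
  have p1 := hc.pos {c}ᶜ (ne_emp (x := d) (by simp [hdc])) (ne_uni (x := c) (by simp))
  have := hX.2.2
  have := g4.lb.2.2
  omega

theorem fin_step (hc : Core h) (hq : QS h) {A B A2 B4 : Finset V} (g : Gap h A B)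
    (g2 : Gap h A2 Bᶜ) (g4 : Gap h (A ∪ A2)ᶜ B4) {p4 : V} (hp4 : p4 ∈ B4) (hp4A : p4 ∈ A) :
    False := by
  have hA2B : ∀ z ∈ A2, z ∉ B := fun z hz => by simpa using g2.sub hz
  have a1 : ∀ z ∈ A, z ∈ B4 := by
    intro z hz
    by_contra hzB
    exact clm hc g2 g4 (d := p4) (c := z) hp4 (by simp [hp4A]) hzB (by simp [g.sub hp4A])
      (by simp [g.sub hz])
  obtain ⟨c0, hc0⟩ := ex_not g4.lb
  have hc0K : c0 ∉ (A ∪ A2)ᶜ := fun h' => hc0 (g4.sub h')
  have hc0A2 : c0 ∈ A2 := by
    simp only [mem_compl, mem_union, not_not] at hc0K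
    rcases hc0K with h' | h'
    · exact absurd (a1 c0 h') hc0
    · exact h'
  have a2 : ∀ z ∈ A2, z ∉ B4 := by
    intro z hz hzB
    exact clm hc g g4 (d := z) (c := c0) hzB (by simp [hz]) hc0 (hA2B z hz) (hA2B c0 hc0A2)
  obtain ⟨a, a', haB, ha'B, haK, ha'K, haa⟩ := g4.two
  have haA : a ∈ A := by
    simp only [mem_compl, mem_union, not_not] at haK
    rcases haK with h' | h'
    · exact h'
    · exact absurd haB (a2 a h')
  have ha'A : a' ∈ A := by
    simp only [mem_compl, mem_union, not_not] at ha'K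
    rcases ha'K with h' | h'
    · exact h'
    · exact absurd ha'B (a2 a' h')
  obtain ⟨e, e', he, he', heA, he'A, hee⟩ := g2.two
  have heB : e ∉ B := by simpa using he
  have he'B : e' ∉ B := by simpa using he'
  have key : ∀ (a a' e e' : V) (S : Finset V), a ∈ A → a' ∈ A → e ∉ B → e' ∉ B → e ∉ A2 →
      e' ∉ A2 → L h S → a ∈ S → e ∈ S → a' ∉ S → e' ∉ S → False := by
    intro a a' e e' S ha ha' he he' heA he'A hS haS heS ha'S he'S
    have k1 := (cross hc hS g2.lb (x := e) (y := a') heS (by simp [he]) ha'S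
      (by simp [g.sub ha'])).1
    have k2 : ∀ z ∈ S, z ∉ A2 := by
      intro z hz hzA
      have k3 := (cross hc k1 g2.la (x := z) (y := e')
        (mem_inter.2 ⟨hz, g2.sub hzA⟩) hzA (by simp [he'S]) he'A).2
      refine g2.notL (X := (S ∩ Bᶜ) ∪ A2) (x := e) (y := e') ?_ ?_ ?_ heA ?_ ?_ k3
      · exact subset_union_right
      · exact union_subset inter_subset_right g2.sub
      · exact mem_union_left _ (mem_inter.2 ⟨heS, by simp [he]⟩)
      · simp [he'S, he'A]
      · simp [he']
    have heK : e ∈ (A ∪ A2)ᶜ := by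
      simp only [mem_compl, mem_union, not_or]
      exact ⟨fun h' => he (g.sub h'), heA⟩
    have k4 := (cross hc hS g4.la (x := e) (y := a') heS heK ha'S (by simp [ha'])).2
    refine g4.notL (X := S ∪ (A ∪ A2)ᶜ) (x := a) (y := a') ?_ ?_ ?_ ?_ ?_ (a1 a' ha') k4
    · exact subset_union_right
    · intro z hz
      rcases mem_union.1 hz with hz | hz
      · by_cases hzA : z ∈ A
        · exact a1 z hzA
        · exact g4.sub (by simp [hzA, k2 z hz])
      · exact g4.sub hz
    · exact mem_union_left _ haS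
    · simp [ha]
    · simp [ha'S, ha']
  have n1 : a ≠ e := fun h' => heB (h' ▸ g.sub haA)
  have n2 : a ≠ e' := fun h' => he'B (h' ▸ g.sub haA)
  have n3 : a' ≠ e := fun h' => heB (h' ▸ g.sub ha'A)
  have n4 : a' ≠ e' := fun h' => he'B (h' ▸ g.sub ha'A)
  obtain ⟨S, hS, hcase⟩ := hq a e a' e' n1 haa n2 (Ne.symm n3) hee n4
  rcases hcase with ⟨c1, c2, c3, c4⟩ | ⟨c1, c2, c3, c4⟩
  · exact key a a' e e' S haA ha'A heB he'B heA he'A hS c1 c2 c3 c4
  · exact key a' a e' e S ha'A haA he'B heB he'A heA hS c3 c4 c1 c2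

theorem KL (hc : Core h) (hq : QS h) {A B A2 : Finset V} (g : Gap h A B)
    (g2 : Gap h A2 Bᶜ) : L h (A ∪ A2)ᶜ := by
  have hA2B : ∀ z ∈ A2, z ∉ B := fun z hz => by simpa using g2.sub hz
  obtain ⟨p, q, hpB, hqB, hpA, hqA, hpq⟩ := g.two
  obtain ⟨e, e', he, he', heA, he'A, hee⟩ := g2.two
  have heB : e ∉ B := by simpa using he
  have he'B : e' ∉ B := by simpa using he'
  obtain ⟨a0, ha0⟩ := ex_mem g.la
  obtain ⟨b0, hb0⟩ := ex_mem g2.la
  by_cases hA : L h (A ∪ A2)
  · have g3 : Gap h (A ∪ A2) (B ∪ A2) := by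
      refine ⟨hA, g.sup_low hc (x := e) subset_union_left (by simp [heB, heA]),
        union_subset_union g.sub (Finset.Subset.refl _),
        ⟨p, q, by simp [hpB], by simp [hqB], ?_, ?_, hpq⟩, ?_⟩
      · simp only [mem_union, not_or]; exact ⟨hpA, fun h' => hA2B p h' hpB⟩
      · simp only [mem_union, not_or]; exact ⟨hqA, fun h' => hA2B q h' hqB⟩
      · intro X h1 h2 h3 h4 hX
        have eX : e ∉ X := by
          intro h'
          have := h2 h'
          simp [heB, heA] at this
        have k1 := (cross hc hX g.lb (x := a0) (y := e) (h1 (mem_union_left _ ha0))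
          (g.sub ha0) eX heB).1
        refine g.high (X ∩ B) ?_ inter_subset_right ?_ ?_ k1
        · intro z hz; exact mem_inter.2 ⟨h1 (mem_union_left _ hz), g.sub hz⟩
        · intro heq
          apply h3
          ext z
          constructor
          · intro hz
            by_cases hzB : z ∈ B
            · exact mem_union_left _ (heq ▸ mem_inter.2 ⟨hz, hzB⟩)
            · rcases mem_union.1 (h2 hz) with h' | h'
              · exact absurd h' hzB
              · exact mem_union_right _ h'
          · intro hz; exact h1 hz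
        · intro heq
          apply h4
          ext z
          constructor
          · intro hz; exact h2 hz
          · intro hz
            rcases mem_union.1 hz with h' | h'
            · rw [← heq] at h'; exact (mem_inter.1 h').1
            · exact h1 (mem_union_right _ h')
    have k := g3.compl_low hc hq (E := B \ A) (by
      intro z hz
      simp only [mem_sdiff] at hz
      simp only [mem_union, not_or]
      exact ⟨Or.inl hz.1, hz.2, fun h' => hA2B z h' hz.1⟩)
    have : (B ∪ A2)ᶜ ∪ (B \ A) = (A ∪ A2)ᶜ := by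
      ext z
      simp only [mem_union, mem_compl, mem_sdiff, not_or]
      constructor
      · rintro (⟨h1, h2⟩ | ⟨h1, h2⟩)
        · exact ⟨fun h' => h1 (g.sub h'), h2⟩
        · exact ⟨h2, fun h' => hA2B z h' h1⟩
      · rintro ⟨h1, h2⟩
        by_cases hzB : z ∈ B
        · exact Or.inr ⟨hzB, h1⟩
        · exact Or.inl ⟨hzB, h2⟩
    rw [this] at k
    exact k
  · have base : ∀ a ∈ A, ∀ b ∈ A2, ∀ d ∈ B \ A, ∀ f ∈ Bᶜ \ A2,
        ∃ S, L h S ∧ d ∈ S ∧ f ∈ S ∧ a ∉ S ∧ b ∉ S := by
      intro a ha b hb d hd f hf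
      simp only [mem_sdiff, mem_compl] at hd hf
      have haB := g.sub ha
      have hbB := hA2B b hb
      obtain ⟨S, hS, hcase⟩ := hq a b d f (fun h' => hbB (h' ▸ haB)) (fun h' => hd.2 (h' ▸ ha))
        (fun h' => hf.1 (h' ▸ haB)) (fun h' => hbB (h' ▸ hd.1)) (fun h' => hf.2 (h' ▸ hb))
        (fun h' => hf.1 (h' ▸ hd.1))
      rcases hcase with ⟨c1, c2, c3, c4⟩ | ⟨c1, c2, c3, c4⟩
      · exfalso
        apply hA
        have k1 := (cross hc hS g.lb (x := a) (y := f) c1 haB c4 hf.1).1
        have k2 := (cross hc k1 g.la (x := a) (y := d) (mem_inter.2 ⟨c1, haB⟩) ha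
          (by simp [c3]) hd.2).2
        have k3 : ∀ z ∈ S, z ∈ B → z ∈ A := by
          intro z hz hzB
          by_contra hzA
          refine g.notL (X := (S ∩ B) ∪ A) (x := z) (y := d) subset_union_right
            (union_subset inter_subset_right g.sub)
            (mem_union_left _ (mem_inter.2 ⟨hz, hzB⟩)) hzA ?_ hd.1 k2
          simp [c3, hd.2]
        have k4 := (cross hc hS g2.lb (x := b) (y := d) c2 (by simp [hbB]) c3
          (by simp [hd.1])).1
        have k5 := (cross hc k4 g2.la (x := b) (y := f) (mem_inter.2 ⟨c2, by simp [hbB]⟩) hb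
          (by simp [c4]) hf.2).2
        have k6 : ∀ z ∈ S, z ∉ B → z ∈ A2 := by
          intro z hz hzB
          by_contra hzA
          refine g2.notL (X := (S ∩ Bᶜ) ∪ A2) (x := z) (y := f) subset_union_right
            (union_subset inter_subset_right g2.sub)
            (mem_union_left _ (mem_inter.2 ⟨hz, by simp [hzB]⟩)) hzA ?_ (by simp [hf.1]) k5
          simp [c4, hf.2]
        have k7 := (cross hc hS g.la (x := a) (y := d) c1 ha c3 hd.2).2
        have k8 := (cross hc k7 g2.la (x := b) (y := d) (mem_union_left _ c2) hb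
          (by simp [c3, hd.2]) (fun h' => hA2B d h' hd.1)).2
        have : (S ∪ A) ∪ A2 = A ∪ A2 := by
          ext z
          simp only [mem_union]
          constructor
          · rintro ((h' | h') | h')
            · by_cases hzB : z ∈ B
              · exact Or.inl (k3 z h' hzB)
              · exact Or.inr (k6 z h' hzB)
            · exact Or.inl h'
            · exact Or.inr h'
          · rintro (h' | h')
            · exact Or.inl (Or.inr h')
            · exact Or.inr h'
        rw [this] at k8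
        exact k8
      · exact ⟨S, hS, c3, c4, c1, c2⟩
    have st1 : ∀ f ∈ Bᶜ \ A2, ∀ b ∈ A2, ∃ S, L h S ∧ (B \ A) ⊆ S ∧ (∀ z ∈ A, z ∉ S) ∧
        f ∈ S ∧ b ∉ S := by
      intro f hf b hb
      obtain ⟨S, h1, h2, h3, h4, h5⟩ := sep hc (G := {f}) (H := {b}) (P := B \ A) (Q := A)
        (g := f) (k := b) (p0 := p) (q0 := a0) (by simp) (by simp)
        (mem_sdiff.2 ⟨hpB, hpA⟩) ha0 (by
          intro d hd a ha
          obtain ⟨S, h1, h2, h3, h4, h5⟩ := base a ha b hb d hd f hf
          exact ⟨S, h1, by simpa using h3, by simpa using h5, h2, h4⟩)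
      exact ⟨S, h1, h4, h5, h2 (by simp), h3 b (by simp)⟩
    obtain ⟨S, h1, h2, h3, h4, h5⟩ := sep hc (G := B \ A) (H := A) (P := Bᶜ \ A2) (Q := A2)
        (g := p) (k := a0) (p0 := e) (q0 := b0) (mem_sdiff.2 ⟨hpB, hpA⟩) ha0
        (by simp [heB, heA]) hb0 st1
    have : S = (A ∪ A2)ᶜ := by
      ext z
      simp only [mem_compl, mem_union, not_or]
      constructor
      · intro hz; exact ⟨fun h' => h3 z h' hz, fun h' => h5 z h' hz⟩
      · rintro ⟨hz1, hz2⟩
        by_cases hzB : z ∈ B
        · exact h2 (mem_sdiff.2 ⟨hzB, hz1⟩)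
        · exact h4 (mem_sdiff.2 ⟨by simp [hzB], hz2⟩)
    rw [← this]
    exact h1

theorem mono (hc : Core h) (hq : QS h) {A B X : Finset V} (g : Gap h A B) {d : V}
    (hX : ∀ z ∈ X, z ∉ A) (hdB : d ∈ B) (hdA : d ∉ A) (hdX : d ∉ X) : h X ≤ h (insert d X) := by
  have k1 := g.compl_low hc hq (E := B \ A) (by
    intro z hz; simpa using hz)
  have k2 := g.compl_low hc hq (E := (B \ A).erase d) (by
    intro z hz
    simp only [mem_erase, mem_sdiff] at hz
    exact hz.2)
  have e1 : Bᶜ ∪ (B \ A) = Aᶜ := by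
    ext z
    have f1 : z ∈ A → z ∈ B := fun h' => g.sub h'
    simp only [mem_union, mem_compl, mem_sdiff]
    tauto
  have e2 : Bᶜ ∪ (B \ A).erase d = Aᶜ.erase d := by
    ext z
    have f1 : z ∈ A → z ∈ B := fun h' => g.sub h'
    have f2 : z = d → z ∈ B := fun h' => h' ▸ hdB
    simp only [mem_union, mem_compl, mem_sdiff, mem_erase]
    tauto
  rw [e1] at k1
  rw [e2] at k2
  have e := hc.sub (insert d X) (Aᶜ.erase d)
  have e3 : insert d X ∪ Aᶜ.erase d = Aᶜ := by
    ext z
    have f1 := hX z
    have f2 : z = d → z ∉ A := fun h' => h' ▸ hdA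
    simp only [mem_union, mem_insert, mem_compl, mem_erase]
    tauto
  have e4 : insert d X ∩ Aᶜ.erase d = X := by
    ext z
    have f1 := hX z
    have f2 : z = d → z ∉ X := fun h' => h' ▸ hdX
    simp only [mem_inter, mem_insert, mem_compl, mem_erase]
    tauto
  rw [e3, e4] at e
  have := hc.pos Aᶜ k1.1 k1.2.1
  have := k2.2.2
  omega

theorem K_sub (hc : Core h) (hq : QS h) {A B A2 : Finset V} (g : Gap h A B)
    (g2 : Gap h A2 Bᶜ) (hK : L h (A ∪ A2)ᶜ) :
    ∀ (n : ℕ) (X : Finset V), X ⊆ (A ∪ A2)ᶜ → ((A ∪ A2)ᶜ \ X).card ≤ n → h X ≤ 1 := by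
  intro n
  induction n with
  | zero =>
    intro X hX hn
    have : (A ∪ A2)ᶜ \ X = ∅ := Finset.card_eq_zero.1 (by omega)
    have h2 := sdiff_eq_empty_iff_subset.1 this
    have : X = (A ∪ A2)ᶜ := Finset.Subset.antisymm hX h2
    rw [this]; exact hK.2.2
  | succ n ih =>
    intro X hX hn
    by_cases hKX : (A ∪ A2)ᶜ ⊆ X
    · have : X = (A ∪ A2)ᶜ := Finset.Subset.antisymm hX hKX
      rw [this]; exact hK.2.2
    · obtain ⟨d, hdK, hdX⟩ := not_subset.1 hKX
      have hdK' := hdK
      simp only [mem_compl, mem_union, not_or] at hdK'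
      have hcard : ((A ∪ A2)ᶜ \ insert d X).card ≤ n := by
        have : ((A ∪ A2)ᶜ \ insert d X).card < ((A ∪ A2)ᶜ \ X).card := by
          apply card_lt_card
          refine ⟨sdiff_subset_sdiff (Finset.Subset.refl _) (subset_insert _ _), ?_⟩
          intro hs
          have := hs (mem_sdiff.2 ⟨hdK, hdX⟩)
          simp at this
        omega
      have h1 := ih (insert d X) (insert_subset hdK hX) hcard
      have hXA : ∀ z ∈ X, z ∉ A := by
        intro z hz
        have := hX hz
        simp only [mem_compl, mem_union, not_or] at this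
        exact this.1
      have hXA2 : ∀ z ∈ X, z ∉ A2 := by
        intro z hz
        have := hX hz
        simp only [mem_compl, mem_union, not_or] at this
        exact this.2
      by_cases hdB : d ∈ B
      · have := mono hc hq g hXA hdB hdK'.1 hdX
        omega
      · have := mono hc hq g2 hXA2 (d := d) (by simp [hdB]) hdK'.2 hdX
        omega

end Pool.Agent.Run7.h836.Frank
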