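import Pool.Agent.Run7.h836.Frank.Dec

namespace Pool.Agent.Run7.h836.Frank

open Finset
set_option linter.unusedSectionVars false

variable {n : ℕ}

/-- from a good vector to an extreme point of the polymatroid (tight sets and zero coordinates) -/
theorem assemble' (f : Finset (Fin n) → ℤ) (h2 : ∀ e : Fin n, f {e} ≤ 2)
    {y : Fin n → ℤ}
    (hy1 : ∀ S, ∑ i ∈ S, y i ≤ f S - S.card ∧ - (f S - S.card) ≤ ∑ i ∈ S, y i)
    (hy2 : ∀ x : Fin n → ℝ, (∀ S, ∑ i ∈ S, y i = f S - S.card →
        ∑ i ∈ S, x i = ((f S - S.card : ℤ) : ℝ)) → (∀ i, y i = -1 → x i = -1) →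
        ∀ i, x i = (y i : ℝ)) :
    ∃ v ∈ Set.extremePoints ℝ
          {x : Fin n → ℝ | (∀ i, 0 ≤ x i) ∧
            ∀ A : Finset (Fin n), ∑ i ∈ A, x i ≤ (f A : ℝ)},
        (∀ i, 0 ≤ 2 - v i) ∧
          ∀ A : Finset (Fin n), ∑ i ∈ A, (2 - v i) ≤ (f A : ℝ) := by
  have hb : ∀ i, y i ≤ 1 ∧ -1 ≤ y i := by
    intro i
    have := hy1 {i}
    simp only [sum_singleton, card_singleton] at this
    have := h2 i
    push_cast at *
    constructor <;> omega
  have hsum : ∀ A : Finset (Fin n), ∑ i ∈ A, (1 + (y i : ℝ)) = A.card + ((∑ i ∈ A, y i : ℤ) : ℝ) := by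
    intro A
    rw [sum_add_distrib]; simp
  have hsum2 : ∀ A : Finset (Fin n), ∑ i ∈ A, (2 - (1 + (y i : ℝ))) =
      A.card - ((∑ i ∈ A, y i : ℤ) : ℝ) := by
    intro A
    have : ∀ i, (2 - (1 + (y i : ℝ))) = 1 - (y i : ℝ) := fun i => by ring
    simp only [this]
    rw [sum_sub_distrib]; simp
  refine ⟨fun i => 1 + (y i : ℝ), ?_, ?_, ?_⟩
  · rw [mem_extremePoints_iff_left]
    refine ⟨⟨?_, ?_⟩, ?_⟩
    · intro i
      have : (-1 : ℝ) ≤ (y i : ℝ) := by exact_mod_cast (hb i).2
      linarith
    · intro A
      rw [hsum]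
      have := (hy1 A).1
      have : ((∑ i ∈ A, y i : ℤ) : ℝ) ≤ ((f A - A.card : ℤ) : ℝ) := by exact_mod_cast this
      push_cast at this ⊢
      linarith
    · rintro x1 ⟨hx1, hx1'⟩ x2 ⟨hx2, hx2'⟩ ⟨a, b, ha, hb', hab, hv⟩
      have hdet := hy2 (fun i => x1 i - 1) (by
        intro S hS
        have e1 : ∑ i ∈ S, (x1 i - 1) = ∑ i ∈ S, x1 i - S.card := by
          rw [sum_sub_distrib]; simp
        rw [e1]
        have e2 : ∑ i ∈ S, (1 + (y i : ℝ)) = f S := by
          rw [hsum, hS]; push_cast; ring
        have e3 : a * ∑ i ∈ S, x1 i + b * ∑ i ∈ S, x2 i = f S := by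
          rw [← e2, mul_sum, mul_sum, ← sum_add_distrib]
          refine sum_congr rfl (fun i _ => ?_)
          have := congrFun hv i
          simpa using this
        have e4 := hx1' S
        have e5 := hx2' S
        push_cast
        have e6 : a * ∑ i ∈ S, x1 i + b * ∑ i ∈ S, x2 i ≤ a * ∑ i ∈ S, x1 i + b * f S := by
          have := mul_le_mul_of_nonneg_left e5 hb'.le
          linarith
        have e7 : a * (f S : ℝ) ≤ a * ∑ i ∈ S, x1 i := by
          have : (f S : ℝ) = a * f S + b * f S := by rw [← add_mul, hab, one_mul]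
          linarith
        have e8 : (f S : ℝ) ≤ ∑ i ∈ S, x1 i := le_of_mul_le_mul_left e7 ha
        linarith) (by
        intro i hi
        have e1 : a * x1 i + b * x2 i = 1 + (y i : ℝ) := by
          have := congrFun hv i
          simpa using this
        rw [hi] at e1
        push_cast at e1
        have e2 : 0 ≤ b * x2 i := mul_nonneg hb'.le (hx2 i)
        have e3 : a * x1 i ≤ a * 0 := by linarith
        have e4 := le_of_mul_le_mul_left e3 ha
        have e5 := hx1 i
        show x1 i - 1 = -1
        linarith)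
      funext i
      have := hdet i
      linarith
  · intro i
    have : (y i : ℝ) ≤ 1 := by exact_mod_cast (hb i).1
    simp only
    linarith
  · intro A
    rw [hsum2]
    have := (hy1 A).2
    have : ((-(f A - A.card) : ℤ) : ℝ) ≤ ((∑ i ∈ A, y i : ℤ) : ℝ) := by exact_mod_cast this
    push_cast at this ⊢
    linarith

theorem main (f : Finset (Fin n) → ℤ) (h0 : f ∅ = 0) (hm : Monotone f)
    (hs : ∀ A B : Finset (Fin n), f (A ∪ B) + f (A ∩ B) ≤ f A + f B)
    (h2 : ∀ e : Fin n, f {e} ≤ 2) (h1 : ∀ A : Finset (Fin n), (A.card : ℤ) ≤ f A)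
    (hex : ∀ A : Finset (Fin n), A.card + 3 ≤ n → f A ≤ A.card + 2) :
    ∃ v ∈ Set.extremePoints ℝ
          {x : Fin n → ℝ | (∀ i, 0 ≤ x i) ∧
            ∀ A : Finset (Fin n), ∑ i ∈ A, x i ≤ (f A : ℝ)},
        (∀ i, 0 ≤ 2 - v i) ∧
          ∀ A : Finset (Fin n), ∑ i ∈ A, (2 - v i) ≤ (f A : ℝ) := by
  have hcn : ∀ A : Finset (Fin n), A.card ≤ n := fun A => by
    simpa using card_le_univ A
  have hun : (univ : Finset (Fin n)).card = n := by simp
  let k : Finset (Fin n) → ℤ := fun A => min (f A) n - A.card
  have ksub : ∀ S T, k (S ∪ T) + k (S ∩ T) ≤ k S + k T := by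
    intro S T
    have e1 := hs S T
    have e2 := hm (inter_subset_left : S ∩ T ⊆ S)
    have e3 := hm (inter_subset_right : S ∩ T ⊆ T)
    have e4 := hm (subset_union_left : S ⊆ S ∪ T)
    have e5 := hm (subset_union_right : T ⊆ S ∪ T)
    have e6 := card_union_add_card_inter S T
    simp only [k, min_def]
    split_ifs <;> omega
  have knn : ∀ S, 0 ≤ k S := by
    intro S
    have e1 := h1 S
    have e2 := hcn S
    simp only [k, min_def]
    split_ifs <;> omega
  have k0 : k ∅ = 0 := by simp [k, h0]
  have ku : k univ = 0 := by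
    have := h1 univ
    rw [hun] at this
    simp only [k, min_def, hun]
    split_ifs <;> omega
  have kle : ∀ S, k S ≤ 2 := by
    intro S
    have e1 := hex S
    simp only [k, min_def]
    split_ifs <;> omega
  have finc : ∀ S x, f (insert x S) ≤ f S + 2 := by
    intro S x
    have e1 := hs {x} S
    have e2 := h1 ({x} ∩ S)
    have e3 := h2 x
    have e4 : {x} ∪ S = insert x S := by ext z; simp
    rw [e4] at e1
    omega
  have kinc : ∀ S x, k (insert x S) ≤ k S + 1 ∧ k S ≤ k (insert x S) + 1 := by
    intro S x
    by_cases hx : x ∈ S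
    · rw [insert_eq_of_mem hx]; constructor <;> omega
    · have e1 := finc S x
      have e2 := hm (subset_insert x S)
      have e3 := card_insert_of_notMem hx
      simp only [k, min_def]
      constructor <;> split_ifs <;> omega
  obtain ⟨y, hy1, hy2⟩ := dec ksub knn k0 kle kinc n univ (by rw [hun]) ku
  have kf : ∀ S, k S ≤ f S - S.card := by
    intro S
    simp only [k]
    have := min_le_left (f S) (n : ℤ)
    omega
  have hyb : ∀ S, ∑ i ∈ S, y i ≤ f S - S.card ∧ - (f S - S.card) ≤ ∑ i ∈ S, y i := by
    intro S
    have := hy1 S (subset_univ _)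
    have := kf S
    constructor <;> omega
  have hlow : ∀ i, -1 ≤ y i := by
    intro i
    have := hyb {i}
    simp only [sum_singleton, card_singleton] at this
    have := h2 i
    push_cast at *
    omega
  have yu : ∑ i, y i = 0 := by
    have := hy1 univ (subset_univ _)
    rw [ku] at this
    omega
  -- maximal tight set
  obtain ⟨T, hTt, hTmax⟩ := exists_max_image
    (univ.filter (fun S : Finset (Fin n) => ∑ i ∈ S, y i = f S - S.card)) Finset.card
    ⟨∅, by simp [h0]⟩
  simp only [mem_filter, mem_univ, true_and] at hTt hTmax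
  have hTall : ∀ S : Finset (Fin n), ∑ i ∈ S, y i = f S - S.card → S ⊆ T := by
    intro S hS
    have e1 := hs S T
    have e2 := card_union_add_card_inter S T
    have e3 : ∑ i ∈ S ∪ T, y i + ∑ i ∈ S ∩ T, y i = ∑ i ∈ S, y i + ∑ i ∈ T, y i :=
      sum_union_inter
    have e4 := (hyb (S ∪ T)).1
    have e5 := (hyb (S ∩ T)).1
    have e6 : ∑ i ∈ S ∪ T, y i = f (S ∪ T) - (S ∪ T).card := by omega
    have e7 := hTmax _ e6
    have e8 : S ∪ T = T := (eq_of_subset_of_card_le subset_union_right e7).symm
    rw [← e8]; exact subset_union_left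
  -- off a set that is tight only after truncation all coordinates are -1
  have off : ∀ S : Finset (Fin n), ∑ i ∈ S, y i = k S → ¬ f S ≤ n → ∀ i, i ∉ S → y i = -1 := by
    intro S hS hf i hi
    have e1 : k S = n - S.card := by simp only [k, min_def, if_neg hf]
    have e2 : ∑ i ∈ S, y i + ∑ i ∈ Sᶜ, y i = ∑ i, y i := sum_add_sum_compl S y
    have e3 : ∑ i ∈ Sᶜ, (y i + 1) = 0 := by
      rw [sum_add_distrib]
      have : (Sᶜ.card : ℤ) = n - S.card := by
        have := card_add_card_compl S
        simp only [Fintype.card_fin] at this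
        omega
      simp only [sum_const, nsmul_eq_mul, mul_one, this]
      omega
    have e4 := (sum_eq_zero_iff_of_nonneg (fun i _ => by have := hlow i; omega)).1 e3 i
      (by simp [hi])
    omega
  have det' : ∀ x : Fin n → ℝ, (∀ S, ∑ i ∈ S, y i = f S - S.card →
        ∑ i ∈ S, x i = ((f S - S.card : ℤ) : ℝ)) → (∀ i, y i = -1 → x i = -1) →
        (∀ i, i ∉ T → x i = y i) → ∀ i, x i = (y i : ℝ) := by
    intro x hx hl ho i
    refine hy2 x (fun S _ hS => ?_) i (mem_univ _)
    by_cases hf : f S ≤ n
    · have : k S = f S - S.card := by simp only [k, min_def, if_pos hf]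
      rw [this]
      exact hx S (by rw [hS, this])
    · have o := off S hS hf
      have e1 : k S = n - S.card := by simp only [k, min_def, if_neg hf]
      have e2 : ∑ i ∈ S, x i + ∑ i ∈ Sᶜ, x i = ∑ i, x i := sum_add_sum_compl S x
      have e3 : ∑ i ∈ T, x i + ∑ i ∈ Tᶜ, x i = ∑ i, x i := sum_add_sum_compl T x
      have e4 : ∑ i ∈ T, y i + ∑ i ∈ Tᶜ, y i = ∑ i, y i := sum_add_sum_compl T y
      have e5 : ∑ i ∈ Tᶜ, x i = ((∑ i ∈ Tᶜ, y i : ℤ) : ℝ) := by
        push_cast
        exact sum_congr rfl (fun i hi => ho i (by simpa using hi))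
      have e6 := hx T hTt
      have e7 : ∑ i ∈ Sᶜ, x i = - (Sᶜ.card : ℝ) := by
        rw [sum_congr rfl (fun i hi => hl i (o i (by simpa using hi)))]
        simp
      have e8 : (Sᶜ.card : ℤ) = n - S.card := by
        have := card_add_card_compl S
        simp only [Fintype.card_fin] at this
        omega
      have e9 : (Sᶜ.card : ℝ) = n - S.card := by exact_mod_cast e8
      have e10 : ∑ i, x i = 0 := by
        rw [← e3, e5, e6, ← hTt]
        have : ((∑ i ∈ T, y i : ℤ) : ℝ) + ((∑ i ∈ Tᶜ, y i : ℤ) : ℝ) = ((∑ i, y i : ℤ) : ℝ) := by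
          exact_mod_cast e4
        rw [this, yu]; simp
      rw [e1]
      push_cast
      rw [e10, e7, e9] at e2
      linarith
  by_cases hcase : ∀ e, e ∉ T → y e = -1
  · refine assemble' f h2 hyb (fun x hx hl => det' x hx hl (fun i hi => ?_))
    rw [hcase i hi, hl i (hcase i hi)]
    simp
  · push Not at hcase
    obtain ⟨e, heT, hey⟩ := hcase
    have nt : ∀ S : Finset (Fin n), e ∈ S → ∑ i ∈ S, y i ≤ f S - S.card - 1 := by
      intro S he
      have a1 := (hyb S).1
      by_contra hcon
      exact heT (hTall S (by omega) he)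
    have hye : y e = 0 ∧ f {e} = 2 := by
      have a1 := nt {e} (by simp)
      simp only [sum_singleton, card_singleton] at a1
      have a2 := h2 e
      have a3 := hlow e
      push_cast at a1
      constructor <;> omega
    have uniq : ∀ e', e' ∉ T → e' ≠ e → y e' = -1 := by
      intro e' he'T hne
      by_contra hcon
      have hdet := hy2 (fun i => (y i : ℝ) + (if i = e then 1 else 0) - (if i = e' then 1 else 0))
        (by
          intro S _ hS
          rw [sum_sub_distrib, sum_add_distrib, sum_ite_eq', sum_ite_eq']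
          by_cases hf : f S ≤ n
          · have : k S = f S - S.card := by simp only [k, min_def, if_pos hf]
            have hST := hTall S (by rw [hS, this])
            have a1 : e ∉ S := fun h' => heT (hST h')
            have a2 : e' ∉ S := fun h' => he'T (hST h')
            rw [if_neg a1, if_neg a2, ← hS]
            push_cast; ring
          · have o := off S hS hf
            have a1 : e ∈ S := by by_contra h'; exact hey (o e h')
            have a2 : e' ∈ S := by by_contra h'; exact hcon (o e' h')
            rw [if_pos a1, if_pos a2, ← hS]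
            push_cast; ring) e (mem_univ _)
      simp [Ne.symm hne] at hdet
    have hsum' : ∀ S : Finset (Fin n), ∑ i ∈ S, (y i + (if i = e then 1 else 0)) =
        ∑ i ∈ S, y i + (if e ∈ S then 1 else 0) := by
      intro S
      rw [sum_add_distrib, sum_ite_eq']
    refine assemble' f h2 (y := fun i => y i + (if i = e then 1 else 0)) ?_ ?_
    · intro S
      simp only [hsum']
      by_cases he : e ∈ S
      · have a1 := nt S he
        have a2 := (hyb S).2
        simp only [he, if_true]
        constructor <;> omega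
      · have a1 := hyb S
        simp only [he, if_false]
        constructor <;> omega
    · intro x hx hl
      simp only [hsum'] at hx
      have hxe : x e = 1 := by
        have := hx {e} (by simp [hye.1, hye.2])
        rw [hye.2] at this
        simpa using this
      have hdet := det' (fun i => x i - (if i = e then 1 else 0)) (by
          intro S hS
          have a1 : e ∉ S := fun h' => heT (hTall S hS h')
          have := hx S (by simp [a1, hS])
          rw [sum_sub_distrib, sum_ite_eq', if_neg a1, this]
          simp) (by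
          intro i hi
          have hie : i ≠ e := by rintro rfl; rw [hye.1] at hi; norm_num at hi
          have := hl i (by simp [hie, hi])
          simp [hie, this]) (by
          intro i hi
          by_cases hie : i = e
          · subst hie; simp [hxe, hye.1]
          · have a1 := uniq i hi hie
            have := hl i (by simp [hie, a1])
            simp [hie, this, a1])
      intro i
      have := hdet i
      push_cast
      by_cases hie : i = e
      · subst hie
        simp only [if_true] at this ⊢
        linarith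
      · simp only [hie, if_false] at this ⊢
        linarith

end Pool.Agent.Run7.h836.Frank
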