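import Pool.Agent.Run7.h836.Frank.Fin

namespace Pool.Agent.Run7.h836.Frank

open Finset
set_option linter.unusedSectionVars false

variable {V : Type*} [Fintype V] [DecidableEq V] {h : Finset V → ℤ}

theorem FC_det (x : V → ℝ) {A B : Finset V} (f : FC h A B) :
    (∀ S, L h S → A ⊆ S → S ⊆ B → ∑ i ∈ S, x i = 1) → ∀ e ∈ B, e ∉ A → x e = 0 := by
  induction f with
  | refl A hA => intro _ e h1 h2; exact absurd h1 h2
  | step A a ha hA hB =>
    intro hyp e h1 h2
    have h3 : e = a := by
      rcases mem_insert.1 h1 with h' | h'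
      · exact h'
      · exact absurd h' h2
    have e1 := hyp A hA (Finset.Subset.refl _) (subset_insert _ _)
    have e2 := hyp (insert a A) hB (subset_insert _ _) (Finset.Subset.refl _)
    rw [sum_insert ha, e1] at e2
    rw [h3]; linarith
  | trans A B C f1 f2 h1 h2 =>
    intro hyp e he heA
    by_cases heB : e ∈ B
    · exact h1 (fun S hS k1 k2 => hyp S hS k1 (k2.trans f2.sub)) e heB heA
    · exact h2 (fun S hS k1 k2 => hyp S hS (f1.sub.trans k1) k2) e he heB

/-- the properties of the wanted integral vector on a ground set -/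
def Good (h : Finset V → ℤ) (y : V → ℤ) : Prop :=
  (∀ S, ∑ i ∈ S, y i ≤ h S ∧ - h S ≤ ∑ i ∈ S, y i) ∧
  (∀ x : V → ℝ, (∀ S, ∑ i ∈ S, y i = h S → ∑ i ∈ S, x i = (h S : ℝ)) → ∀ i, x i = (y i : ℝ))

theorem core_vertex (hc : Core h) (h0 : h ∅ = 0) (h1 : h univ = 0) : ∃ y, Good h y := by
  by_cases htriv : ∀ u w : V, u = w
  · refine ⟨fun _ => 0, ?_, ?_⟩
    · intro S
      by_cases hS : S = ∅
      · subst hS; simp [h0]
      · obtain ⟨s, hs⟩ := Finset.nonempty_iff_ne_empty.2 hS
        have : S = univ := by
          ext z; simp only [mem_univ, iff_true]; rw [htriv z s]; exact hs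
        subst this; simp [h1]
    · intro x hx i
      have e := hx univ (by simp [h1])
      have : (univ : Finset V) = {i} := by
        ext z; simp only [mem_univ, mem_singleton, true_iff]; exact htriv z i
      rw [h1, this, sum_singleton] at e
      simpa using e
  push Not at htriv
  obtain ⟨u0, w0, huw0⟩ := htriv
  by_cases hq : QS h
  · obtain ⟨u, w, huw, f⟩ := comb hc hq huw0
    have hy : ∀ S : Finset V, ∑ i ∈ S, ((if i = u then (1 : ℤ) else 0) - (if i = w then 1 else 0))
        = (if u ∈ S then 1 else 0) - (if w ∈ S then 1 else 0) := by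
      intro S
      rw [sum_sub_distrib, sum_ite_eq', sum_ite_eq']
    refine ⟨fun i => (if i = u then (1 : ℤ) else 0) - (if i = w then 1 else 0), ?_, ?_⟩
    · intro S
      simp only [hy]
      by_cases hS : S = ∅
      · subst hS; simp [h0]
      by_cases hS' : S = univ
      · subst hS'; simp [h1]
      have := hc.pos S hS hS'
      constructor <;> split_ifs <;> omega
    · intro x hx
      simp only [hy] at hx
      have k1 : ∀ S, L h S → {u} ⊆ S → S ⊆ {w}ᶜ → ∑ i ∈ S, x i = 1 := by
        intro S hS hu hw
        have a1 : u ∈ S := hu (by simp)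
        have a2 : w ∉ S := fun h' => by simpa using hw h'
        have a3 := hc.pos S hS.1 hS.2.1
        have a4 := hS.2.2
        have a5 : h S = 1 := by omega
        have := hx S (by simp [a1, a2, a5])
        rw [this, a5]; norm_num
      have k2 := FC_det x f k1
      have k3 : x u = 1 := by
        have := k1 {u} (L_one hc huw) (Finset.Subset.refl _) (by simp [Ne.symm huw])
        simpa using this
      have k4 : x w = -1 := by
        have e1 := hx univ (by simp [h1])
        have e2 := k1 {w}ᶜ (L_cone hc huw) (by simp [Ne.symm huw]) (Finset.Subset.refl _)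
        have e3 : (univ : Finset V) = insert w {w}ᶜ := by
          ext z; simp only [mem_univ, mem_insert, mem_compl, mem_singleton, true_iff]
          exact em _
        rw [h1, e3, sum_insert (by simp), e2] at e1
        push_cast at e1
        linarith
      intro i
      by_cases hiu : i = u
      · subst hiu; simp [k3, huw]
      by_cases hiw : i = w
      · subst hiw; simp [k4, Ne.symm huw]
      · have := k2 i (by simp [hiw]) (by simp [hiu])
        simp [this, hiu, hiw]
  · unfold QS at hq
    push Not at hq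
    obtain ⟨a, b, c, d, hab, hac, had, hbc, hbd, hcd, hS⟩ := hq
    have hy : ∀ S : Finset V, ∑ i ∈ S, ((if i = a then (1 : ℤ) else 0) + (if i = b then 1 else 0)
          - (if i = c then 1 else 0) - (if i = d then 1 else 0))
        = (if a ∈ S then 1 else 0) + (if b ∈ S then 1 else 0) - (if c ∈ S then 1 else 0)
          - (if d ∈ S then 1 else 0) := by
      intro S
      rw [sum_sub_distrib, sum_sub_distrib, sum_add_distrib, sum_ite_eq', sum_ite_eq',
        sum_ite_eq', sum_ite_eq']
    have hi1 : ∀ S, a ∈ S → b ∈ S → c ∉ S → d ∉ S → h S = 2 := by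
      intro S k1 k2 k3 k4
      refine not_L hc k1 k3 (fun hL => ?_)
      exact k4 ((hS S hL).1 k1 k2 k3)
    have hi2 : ∀ S, a ∉ S → b ∉ S → c ∈ S → d ∈ S → h S = 2 := by
      intro S k1 k2 k3 k4
      refine not_L hc k3 k1 (fun hL => ?_)
      exact (hS S hL).2 k1 k2 k3 k4
    have one : ∀ v, (∃ w, v ≠ w) → h {v} = 1 := by
      rintro v ⟨w, hw⟩
      have := hc.one v
      have := hc.pos {v} (by simp) (ne_uni (x := w) (by simp [Ne.symm hw]))
      omega
    have cone : ∀ v, (∃ w, v ≠ w) → h {v}ᶜ = 1 := by
      rintro v ⟨w, hw⟩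
      have := hc.cone v
      have := hc.pos {v}ᶜ (ne_emp (x := w) (by simp [Ne.symm hw])) (ne_uni (x := v) (by simp))
      omega
    refine ⟨fun i => (if i = a then (1 : ℤ) else 0) + (if i = b then 1 else 0)
          - (if i = c then 1 else 0) - (if i = d then 1 else 0), ?_, ?_⟩
    · intro S
      simp only [hy]
      by_cases hSe : S = ∅
      · subst hSe; simp [h0]
      by_cases hSu : S = univ
      · subst hSu; simp [h1]
      have h3 := hc.pos S hSe hSu
      have h4 := hi1 S
      have h5 := hi2 S
      by_cases ca : a ∈ S <;> by_cases cb : b ∈ S <;> by_cases cc : c ∈ S <;>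
        by_cases cd : d ∈ S <;> simp only [ca, cb, cc, cd, if_true, if_false, not_true_eq_false,
          not_false_eq_true, forall_true_left, IsEmpty.forall_iff] at h4 h5 ⊢ <;>
        constructor <;> omega
    · intro x hx
      simp only [hy] at hx
      have xa : x a = 1 := by
        have := hx {a} (by simp [one a ⟨b, hab⟩, Ne.symm hab, Ne.symm hac, Ne.symm had])
        rw [one a ⟨b, hab⟩] at this; simpa using this
      have xb : x b = 1 := by
        have := hx {b} (by simp [one b ⟨a, Ne.symm hab⟩, hab, Ne.symm hbc, Ne.symm hbd])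
        rw [one b ⟨a, Ne.symm hab⟩] at this; simpa using this
      have xuniv := hx univ (by simp [h1])
      have xc : x c = -1 := by
        have e2 := hx {c}ᶜ (by simp [cone c ⟨a, Ne.symm hac⟩, hac, hbc, Ne.symm hcd])
        rw [cone c ⟨a, Ne.symm hac⟩] at e2
        have e3 : (univ : Finset V) = insert c {c}ᶜ := by
          ext z; simp only [mem_univ, mem_insert, mem_compl, mem_singleton, true_iff]
          exact em _
        rw [h1, e3, sum_insert (by simp), e2] at xuniv
        push_cast at xuniv
        linarith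
      have xd : x d = -1 := by
        have e2 := hx {d}ᶜ (by simp [cone d ⟨a, Ne.symm had⟩, had, hbd, hcd])
        rw [cone d ⟨a, Ne.symm had⟩] at e2
        have e3 : (univ : Finset V) = insert d {d}ᶜ := by
          ext z; simp only [mem_univ, mem_insert, mem_compl, mem_singleton, true_iff]
          exact em _
        rw [h1, e3, sum_insert (by simp), e2] at xuniv
        push_cast at xuniv
        linarith
      intro i
      by_cases ia : i = a
      · subst ia; simp [xa, hab, hac, had]
      by_cases ib : i = b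
      · subst ib; simp [xb, Ne.symm hab, hbc, hbd]
      by_cases ic : i = c
      · subst ic; simp [xc, Ne.symm hac, Ne.symm hbc, hcd]
      by_cases id' : i = d
      · subst id'; simp [xd, Ne.symm had, Ne.symm hbd, Ne.symm hcd]
      have hh := hi1 {i, a, b} (by simp) (by simp)
        (by simp [Ne.symm hac, Ne.symm hbc, Ne.symm ic])
        (by simp [Ne.symm had, Ne.symm hbd, Ne.symm id'])
      have e := hx {i, a, b} (by
        rw [hh]
        simp [Ne.symm hac, Ne.symm hbc, Ne.symm ic, Ne.symm had, Ne.symm hbd, Ne.symm id'])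
      rw [hh, sum_insert (by simp [ia, ib]), sum_insert (by simp [hab]), sum_singleton, xa, xb] at e
      push_cast at e
      have : x i = 0 := by linarith
      simp [this, ia, ib, ic, id']

/-- from a good vector to an extreme point of the polymatroid -/
theorem assemble {n : ℕ} (f : Finset (Fin n) → ℤ) (h2 : ∀ e : Fin n, f {e} ≤ 2)
    {y : Fin n → ℤ} (hy : Good (fun S => f S - S.card) y) :
    ∃ v ∈ Set.extremePoints ℝ
          {x : Fin n → ℝ | (∀ i, 0 ≤ x i) ∧
            ∀ A : Finset (Fin n), ∑ i ∈ A, x i ≤ (f A : ℝ)},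
        (∀ i, 0 ≤ 2 - v i) ∧
          ∀ A : Finset (Fin n), ∑ i ∈ A, (2 - v i) ≤ (f A : ℝ) := by
  obtain ⟨hy1, hy2⟩ := hy
  simp only at hy1 hy2
  have hb : ∀ i, y i ≤ 1 ∧ -1 ≤ y i := by
    intro i
    have := hy1 {i}
    simp only [sum_singleton, card_singleton] at this
    have := h2 i
    push_cast at *
    constructor <;> omega
  have hsum : ∀ A : Finset (Fin n), ∑ i ∈ A, (1 + (y i : ℝ)) = A.card + ((∑ i ∈ A, y i : ℤ) : ℝ) := by
    intro A
    rw [sum_add_distrib]; simp
  have hsum2 : ∀ A : Finset (Fin n), ∑ i ∈ A, (2 - (1 + (y i : ℝ))) =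
      A.card - ((∑ i ∈ A, y i : ℤ) : ℝ) := by
    intro A
    have : ∀ i, (2 - (1 + (y i : ℝ))) = 1 - (y i : ℝ) := fun i => by ring
    simp only [this]
    rw [sum_sub_distrib]; simp
  refine ⟨fun i => 1 + (y i : ℝ), ?_, ?_, ?_⟩
  · rw [mem_extremePoints_iff_left]
    refine ⟨⟨?_, ?_⟩, ?_⟩
    · intro i
      have : (-1 : ℝ) ≤ (y i : ℝ) := by exact_mod_cast (hb i).2
      linarith
    · intro A
      rw [hsum]
      have := (hy1 A).1
      have : ((∑ i ∈ A, y i : ℤ) : ℝ) ≤ ((f A - A.card : ℤ) : ℝ) := by exact_mod_cast this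
      push_cast at this ⊢
      linarith
    · rintro x1 ⟨hx1, hx1'⟩ x2 ⟨hx2, hx2'⟩ ⟨a, b, ha, hb', hab, hv⟩
      have hdet := hy2 (fun i => x1 i - 1) (by
        intro S hS
        have e1 : ∑ i ∈ S, (x1 i - 1) = ∑ i ∈ S, x1 i - S.card := by
          rw [sum_sub_distrib]; simp
        rw [e1]
        have e2 : ∑ i ∈ S, (1 + (y i : ℝ)) = f S := by
          rw [hsum, hS]; push_cast; ring
        have e3 : a * ∑ i ∈ S, x1 i + b * ∑ i ∈ S, x2 i = f S := by
          rw [← e2, mul_sum, mul_sum, ← sum_add_distrib]
          refine sum_congr rfl (fun i _ => ?_)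
          have := congrFun hv i
          simpa using this
        have e4 := hx1' S
        have e5 := hx2' S
        push_cast
        have e6 : a * ∑ i ∈ S, x1 i + b * ∑ i ∈ S, x2 i ≤ a * ∑ i ∈ S, x1 i + b * f S := by
          have := mul_le_mul_of_nonneg_left e5 hb'.le
          linarith
        have e7 : a * (f S : ℝ) ≤ a * ∑ i ∈ S, x1 i := by
          have : (f S : ℝ) = a * f S + b * f S := by rw [← add_mul, hab, one_mul]
          linarith
        have e8 : (f S : ℝ) ≤ ∑ i ∈ S, x1 i := le_of_mul_le_mul_left e7 ha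
        linarith)
      funext i
      have := hdet i
      linarith
  · intro i
    have : (y i : ℝ) ≤ 1 := by exact_mod_cast (hb i).1
    simp only
    linarith
  · intro A
    rw [hsum2]
    have := (hy1 A).2
    have : ((-(f A - A.card) : ℤ) : ℝ) ≤ ((∑ i ∈ A, y i : ℤ) : ℝ) := by exact_mod_cast this
    push_cast at this ⊢
    linarith

end Pool.Agent.Run7.h836.Frank
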